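import Mathlib

set_option autoImplicit false

namespace Pool.Agent.H515R2.Karp

open Matrix

lemma aux_abs_int {c : ℤ} (hc : c ≠ 0) : (1 : ℝ) ≤ |(c : ℝ)| := by
  have : 1 ≤ |c| := Int.one_le_abs hc
  have h2 : ((1 : ℤ) : ℝ) ≤ ((|c| : ℤ) : ℝ) := by exact_mod_cast this
  simpa using h2

lemma aux_r {B q r : ℝ} (hB : 1 ≤ B) (hr0 : 0 ≤ r) (hr : r ^ 2 = q) (hq : 256 * B ^ 2 ≤ q) :
    16 * B ≤ r := by
  by_contra h
  push Not at h
  nlinarith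

lemma aux_W {L W B : ℝ} (hL : 1 / 2 ≤ L) (hW : 0 ≤ W) (h : L * W < B) : W < 2 * B := by
  nlinarith

lemma aux_I {R E I B : ℝ} (hB : 1 ≤ B) (hE : 1 / 2 ≤ E) (h : R ^ 2 + E * I ^ 2 < 2 * B) :
    |I| < 2 * B := by
  apply abs_lt_of_sq_lt_sq _ (by linarith)
  nlinarith [sq_nonneg R, sq_nonneg I]

lemma aux_R {R E I B : ℝ} (hB : 1 ≤ B) (hE : 1 / 2 ≤ E) (h : R ^ 2 + E * I ^ 2 < 2 * B) :
    |R| < 2 * B := by
  apply abs_lt_of_sq_lt_sq _ (by linarith)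
  nlinarith [sq_nonneg R, sq_nonneg I]

lemma aux_p {p q r : ℝ} (hr0 : 0 ≤ r) (hr : r ^ 2 = q) (h : 1 / 2 ≤ q - p ^ 2 / 4) :
    |p| ≤ 2 * r := by
  apply abs_le_of_sq_le_sq _ (by linarith)
  nlinarith

lemma aux_rθ {q r θ B : ℝ} (hB : 1 ≤ B) (hr : r ^ 2 = q) (hθ : θ * q = 1) (hrB : 16 * B ≤ r) :
    r * θ ≤ 1 / 16 := by
  have h1 : (r * θ) * r = 1 := by rw [← hθ, ← hr]; ring
  by_contra h
  push Not at h
  nlinarith

lemma aux_c {q r B c θ p : ℝ} (hr : r ^ 2 = q) (hB : 1 ≤ B) (hrB : 16 * B ≤ r)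
    (hx : |c * (q - p * θ + θ ^ 2)| ≤ q / 2 + 2 * B + 2 * r * B + 2 * B) (hc : 1 ≤ |c|)
    (hpθ : p * θ ≤ 1) : False := by
  have h3 : q - 1 ≤ |q - p * θ + θ ^ 2| := by
    apply le_trans _ (le_abs_self _)
    linarith [sq_nonneg θ]
  have h4 : (0 : ℝ) ≤ |q - p * θ + θ ^ 2| := abs_nonneg _
  rw [abs_mul] at hx
  have h5 : |q - p * θ + θ ^ 2| ≤ |c| * |q - p * θ + θ ^ 2| := by
    calc |q - p * θ + θ ^ 2| = 1 * |q - p * θ + θ ^ 2| := by ring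
      _ ≤ _ := mul_le_mul_of_nonneg_right hc h4
  have h6 : q - 1 ≤ q / 2 + 2 * B + 2 * r * B + 2 * B := by linarith
  have h7 : 16 * B * r ≤ r * r := mul_le_mul_of_nonneg_right hrB (by linarith)
  have h8 : 16 * r ≤ r * r := by nlinarith
  nlinarith

lemma aux_p2 {p q r E B : ℝ} (hE : E = q - p ^ 2 / 4) (hE2 : E < 2 * B) (hr0 : 0 ≤ r)
    (hr : r ^ 2 = q) (hB : 1 ≤ B) (hrB : 16 * B ≤ r) : r ≤ |p| := by
  have h7 : 16 * B * r ≤ r * r := mul_le_mul_of_nonneg_right hrB (by linarith)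
  have h9 : 16 * B ≤ 16 * B * r := by nlinarith
  have h8 : r ^ 2 ≤ |p| ^ 2 := by
    rw [sq_abs]; nlinarith
  exact le_of_sq_le_sq h8 (abs_nonneg _)
where
  le_of_sq_le_sq {a b : ℝ} (h : a ^ 2 ≤ b ^ 2) (hb : 0 ≤ b) : a ≤ b := by
    exact le_trans (le_abs_self a) (abs_le_of_sq_le_sq h hb)

/-- the real inequality at the heart of the proof -/
lemma real_core (B q θ p : ℝ) (hB : 1 ≤ B) (hq : 256 * B ^ 2 ≤ q) (hθ : θ * q = 1)
    (hη : 1 / 2 ≤ q - p ^ 2 / 4) (a b c : ℤ)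
    (hL1 : 1 / 2 ≤ |(a : ℝ) + b * θ + c * q|) (hL2 : |(a : ℝ) + b * θ + c * q| < q / 2)
    (hLW : |(a : ℝ) + b * θ + c * q| *
      (((a : ℝ) + p / 2 * (b + c * θ)) ^ 2 + (q - p ^ 2 / 4) * (b - c * θ) ^ 2) < B) :
    b = 0 ∧ c = 0 := by
  have hq0 : 0 < q := by nlinarith
  have hθ0 : 0 < θ := by
    by_contra h
    push Not at h
    nlinarith
  obtain ⟨r, hr0, hr⟩ : ∃ r : ℝ, 0 ≤ r ∧ r ^ 2 = q :=
    ⟨Real.sqrt q, Real.sqrt_nonneg _, Real.sq_sqrt hq0.le⟩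
  have hrB : 16 * B ≤ r := aux_r hB hr0 hr hq
  have hθle : θ * 256 ≤ 1 := by
    have : θ * 256 ≤ θ * q := by
      apply mul_le_mul_of_nonneg_left _ hθ0.le
      nlinarith
    linarith
  obtain ⟨I, hI⟩ : ∃ I : ℝ, I = (b : ℝ) - c * θ := ⟨_, rfl⟩
  obtain ⟨R, hR⟩ : ∃ R : ℝ, R = (a : ℝ) + p / 2 * (b + c * θ) := ⟨_, rfl⟩
  obtain ⟨L, hL⟩ : ∃ L : ℝ, L = (a : ℝ) + b * θ + c * q := ⟨_, rfl⟩
  obtain ⟨E, hE⟩ : ∃ E : ℝ, E = q - p ^ 2 / 4 := ⟨_, rfl⟩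
  rw [← hL, ← hI, ← hR, ← hE] at hLW
  rw [← hL] at hL1 hL2
  rw [← hE] at hη
  have hW0 : 0 ≤ R ^ 2 + E * I ^ 2 := by positivity
  have hW : R ^ 2 + E * I ^ 2 < 2 * B := aux_W hL1 hW0 hLW
  have hI2 : |I| < 2 * B := aux_I hB hη hW
  have hR2 : |R| < 2 * B := aux_R hB hη hW
  have hp : |p| ≤ 2 * r := aux_p hr0 hr (hE ▸ hη)
  obtain ⟨hI3, hI4⟩ := abs_lt.1 hI2
  obtain ⟨hR3, hR4⟩ := abs_lt.1 hR2
  obtain ⟨hp3, hp4⟩ := abs_le.1 hp
  obtain ⟨hL3, hL4⟩ := abs_lt.1 hL2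
  have hrθ : r * θ ≤ 1 / 16 := aux_rθ hB hr hθ hrB
  have hid : (c : ℝ) * (q - p * θ + θ ^ 2) = L - R + p * I / 2 - I * θ := by
    rw [hL, hR, hI]; ring
  have hpI : |p * I| ≤ 2 * r * (2 * B) := by
    rw [abs_mul]
    exact mul_le_mul hp hI2.le (abs_nonneg _) (by linarith)
  have hIθ : |I * θ| ≤ 2 * B * 1 := by
    rw [abs_mul]
    apply mul_le_mul hI2.le _ (abs_nonneg _) (by linarith)
    rw [abs_of_pos hθ0]; linarith
  have hpθ : |p * θ| ≤ 1 := by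
    rw [abs_mul, abs_of_pos hθ0]
    calc |p| * θ ≤ (2 * r) * θ := mul_le_mul_of_nonneg_right hp hθ0.le
      _ = 2 * (r * θ) := by ring
      _ ≤ 1 := by linarith
  obtain ⟨hpI3, hpI4⟩ := abs_le.1 hpI
  obtain ⟨hIθ3, hIθ4⟩ := abs_le.1 hIθ
  obtain ⟨hpθ3, hpθ4⟩ := abs_le.1 hpθ
  have hc : c = 0 := by
    by_contra hc
    have h1 : |(c : ℝ) * (q - p * θ + θ ^ 2)| ≤ q / 2 + 2 * B + 2 * r * B + 2 * B := by
      rw [hid]
      rw [abs_le]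
      constructor <;> linarith
    exact aux_c hr hB hrB h1 (aux_abs_int hc) hpθ4
  refine ⟨?_, hc⟩
  subst hc
  by_contra hb
  have hb1 : (1 : ℝ) ≤ |(b : ℝ)| := aux_abs_int hb
  have hIb : I = b := by rw [hI]; push_cast; ring
  have hRb : R = a + p * b / 2 := by rw [hR]; push_cast; ring
  have hLb : L = a + b * θ := by rw [hL]; push_cast; ring
  have hbsq : (1 : ℝ) ≤ (b : ℝ) ^ 2 := by
    rw [← sq_abs]
    calc (1 : ℝ) = 1 ^ 2 := by norm_num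
      _ ≤ |(b : ℝ)| ^ 2 := pow_le_pow_left₀ (by norm_num) hb1 2
  rw [hIb] at hW hI2 hLW
  have hEb : E ≤ E * (b : ℝ) ^ 2 := by
    calc E = E * 1 := by ring
      _ ≤ _ := mul_le_mul_of_nonneg_left hbsq (by linarith)
  have hE2 : E < 2 * B := by linarith [sq_nonneg R]
  have hp2 : r ≤ |p| := aux_p2 hE hE2 hr0 hr hB hrB
  have ha : r / 2 - 2 * B ≤ |(a : ℝ)| := by
    have h2 : |p * b / 2| ≤ |(a : ℝ)| + |R| := by
      have h5 : p * b / 2 = R - a := by rw [hRb]; ring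
      rw [h5]
      have h6 := abs_sub R (a : ℝ)
      linarith
    have h3 : |p * b / 2| = |p| * |(b : ℝ)| / 2 := by
      rw [abs_div, abs_mul]; norm_num
    have h4 : r * 1 ≤ |p| * |(b : ℝ)| := mul_le_mul hp2 hb1 (by norm_num) (abs_nonneg _)
    linarith
  have hLr : r / 4 ≤ |L| := by
    have h1 : |(a : ℝ)| ≤ |L| + |(b : ℝ) * θ| := by
      have h5 : (a : ℝ) = L - b * θ := by rw [hLb]; ring
      rw [h5]
      have h6 := abs_sub L ((b : ℝ) * θ)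
      linarith
    have h2 : |(b : ℝ) * θ| ≤ 2 * B * (1 / 256) := by
      rw [abs_mul, abs_of_pos hθ0]
      apply mul_le_mul hI2.le (by linarith) hθ0.le (by linarith)
    linarith
  have hWb : 1 / 2 ≤ R ^ 2 + E * (b : ℝ) ^ 2 := by
    linarith [sq_nonneg R]
  have h9 : r / 4 * (1 / 2) < B := by
    calc r / 4 * (1 / 2) ≤ |L| * (R ^ 2 + E * (b : ℝ) ^ 2) := by
          apply mul_le_mul hLr hWb (by norm_num) (abs_nonneg _)
      _ < B := hLW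
  linarith

/-- the matrix with columns `x, N x, N² x` -/
def K (N : Matrix (Fin 3) (Fin 3) ℤ) (x : Fin 3 → ℤ) : Matrix (Fin 3) (Fin 3) ℤ :=
  Matrix.of fun i j => ((N ^ (j : ℕ)) *ᵥ x) i

/-- the cubic form `det (x, N x, N² x)` -/
def F (N : Matrix (Fin 3) (Fin 3) ℤ) (x : Fin 3 → ℤ) : ℤ := (K N x).det

lemma K_comm {V N : Matrix (Fin 3) (Fin 3) ℤ} (h : Commute V N) (x : Fin 3 → ℤ) :
    K N (V *ᵥ x) = V * K N x := by
  ext i j
  have h1 : N ^ (j : ℕ) * V = V * N ^ (j : ℕ) := ((h.pow_right (j : ℕ)).eq).symm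
  have h2 : (N ^ (j : ℕ)) *ᵥ (V *ᵥ x) = V *ᵥ ((N ^ (j : ℕ)) *ᵥ x) := by
    rw [Matrix.mulVec_mulVec, Matrix.mulVec_mulVec, h1]
  simp only [K, Matrix.of_apply, h2, Matrix.mul_apply]
  rfl

lemma F_comm {V N : Matrix (Fin 3) (Fin 3) ℤ} (h : Commute V N) (x : Fin 3 → ℤ) :
    F N (V *ᵥ x) = V.det * F N x := by
  rw [F, K_comm h, Matrix.det_mul, F]

/-- companion matrix of `X³ - S X² + T X - 1` -/
def Co (S T : ℤ) : Matrix (Fin 3) (Fin 3) ℤ := !![0, 0, 1; 1, 0, -T; 0, 1, S]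

lemma mul_K {N : Matrix (Fin 3) (Fin 3) ℤ} {S T : ℤ} (h : N ^ 3 = S • N ^ 2 - T • N + 1)
    (x : Fin 3 → ℤ) : N * K N x = K N x * Co S T := by
  have h3 : ∀ i, ((N ^ 3) *ᵥ x) i = S * ((N ^ 2) *ᵥ x) i - T * (N *ᵥ x) i + x i := by
    intro i
    rw [h, Matrix.add_mulVec, Matrix.sub_mulVec, Matrix.smul_mulVec, Matrix.smul_mulVec,
      Matrix.one_mulVec]
    simp
  rw [← K_comm (Commute.refl N)]
  ext i j
  have h1 : (K N (N *ᵥ x)) i j = ((N ^ ((j : ℕ) + 1)) *ᵥ x) i := by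
    simp only [K, Matrix.of_apply, Matrix.mulVec_mulVec, pow_succ]
  rw [h1, Matrix.mul_apply, Fin.sum_univ_three]
  fin_cases j
  · simp [K, Co]
  · simp [K, Co]
  · simp [K, Co, h3]
    ring

lemma adj_mul {N : Matrix (Fin 3) (Fin 3) ℤ} {S T : ℤ} (h : N ^ 3 = S • N ^ 2 - T • N + 1)
    {x : Fin 3 → ℤ} (hx : F N x ≠ 0) :
    (K N x).adjugate * N = Co S T * (K N x).adjugate := by
  have h1 := mul_K h x
  have h2 : F N x • ((K N x).adjugate * N) = F N x • (Co S T * (K N x).adjugate) := by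
    have h3 : (K N x).adjugate * (N * K N x) * (K N x).adjugate =
        (K N x).adjugate * (K N x * Co S T) * (K N x).adjugate := by rw [h1]
    have h4 : (K N x).adjugate * (N * K N x) * (K N x).adjugate =
        F N x • ((K N x).adjugate * N) := by
      rw [Matrix.mul_assoc, Matrix.mul_assoc, Matrix.mul_adjugate, Matrix.mul_smul,
        Matrix.mul_smul, Matrix.mul_one]
      rfl
    have h5 : (K N x).adjugate * (K N x * Co S T) * (K N x).adjugate =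
        F N x • (Co S T * (K N x).adjugate) := by
      rw [← Matrix.mul_assoc, Matrix.adjugate_mul, Matrix.smul_mul, Matrix.one_mul,
        Matrix.smul_mul]
      rfl
    rw [← h4, ← h5, h3]
  exact smul_right_injective _ hx h2

/-- coordinates of `y` with respect to `e, N e, N² e`, multiplied by the determinant -/
def kap (N : Matrix (Fin 3) (Fin 3) ℤ) (e y : Fin 3 → ℤ) : Fin 3 → ℤ := (K N e).adjugate *ᵥ y

lemma K_kap (N : Matrix (Fin 3) (Fin 3) ℤ) (e y : Fin 3 → ℤ) :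
    K N e *ᵥ kap N e y = F N e • y := by
  rw [kap, Matrix.mulVec_mulVec, Matrix.mul_adjugate, Matrix.smul_mulVec, Matrix.one_mulVec]
  rfl

lemma kap_mul {N : Matrix (Fin 3) (Fin 3) ℤ} {S T : ℤ} (h : N ^ 3 = S • N ^ 2 - T • N + 1)
    {e : Fin 3 → ℤ} (he : F N e ≠ 0) (y : Fin 3 → ℤ) :
    kap N e (N *ᵥ y) = Co S T *ᵥ kap N e y := by
  rw [kap, kap, Matrix.mulVec_mulVec, Matrix.mulVec_mulVec, adj_mul h he]

lemma F_kap {N : Matrix (Fin 3) (Fin 3) ℤ} {S T : ℤ} (h : N ^ 3 = S • N ^ 2 - T • N + 1)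
    {e : Fin 3 → ℤ} (he : F N e ≠ 0) (y : Fin 3 → ℤ) :
    (F N e) ^ 2 * F N y = F (Co S T) (kap N e y) := by
  have h1 : K (Co S T) (kap N e y) = (K N e).adjugate * K N y := by
    have h2 : ∀ j : ℕ, (Co S T) ^ j * (K N e).adjugate = (K N e).adjugate * N ^ j := by
      intro j
      induction j with
      | zero => simp
      | succ j ih =>
        rw [pow_succ, Matrix.mul_assoc, ← adj_mul h he, ← Matrix.mul_assoc, ih, Matrix.mul_assoc,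
          ← pow_succ]
    ext i j
    have h3 : ((Co S T) ^ (j : ℕ)) *ᵥ kap N e y = (K N e).adjugate *ᵥ ((N ^ (j : ℕ)) *ᵥ y) := by
      rw [kap, Matrix.mulVec_mulVec, h2, Matrix.mulVec_mulVec]
    simp only [K, Matrix.of_apply, Matrix.mul_apply] at h3 ⊢
    rw [h3]
    rfl
  have h4 : (K N e).adjugate.det = (F N e) ^ 2 := by
    rw [Matrix.det_adjugate]
    rfl
  have h5 : F (Co S T) (kap N e y) = ((K N e).adjugate * K N y).det := by rw [← h1]; rfl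
  rw [h5, Matrix.det_mul, h4]
  rfl

lemma F_Co (S T : ℤ) (k : Fin 3 → ℤ) : F (Co S T) k =
    k 0 ^ 3 + S * k 0 ^ 2 * k 1 + (S ^ 2 - 2 * T) * k 0 ^ 2 * k 2 + T * k 0 * k 1 ^ 2 +
    (S * T - 3) * k 0 * k 1 * k 2 + (T ^ 2 - 2 * S) * k 0 * k 2 ^ 2 + k 1 ^ 3 +
    S * k 1 ^ 2 * k 2 + T * k 1 * k 2 ^ 2 + k 2 ^ 3 := by
  have h0 : ∀ i, K (Co S T) k i 0 = k i := by
    intro i; simp [K]
  have h1 : ∀ i, K (Co S T) k i 1 = (Co S T *ᵥ k) i := by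
    intro i; simp [K]
  have h2 : ∀ i, K (Co S T) k i 2 = (Co S T *ᵥ (Co S T *ᵥ k)) i := by
    intro i; simp [K, pow_two, Matrix.mulVec_mulVec]
  rw [F, Matrix.det_fin_three]
  simp only [h0, h1, h2]
  simp [Co, Matrix.mulVec, dotProduct, Fin.sum_univ_three]
  ring

lemma F_real {S T : ℤ} {θ p q : ℝ} (hθ : θ * q = 1) (hS : (S : ℝ) = θ + p)
    (hT : (T : ℝ) = q + θ * p) (k : Fin 3 → ℤ) :
    (F (Co S T) k : ℝ) = ((k 1 : ℝ) + k 2 * θ + k 0 * q) *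
      (((k 1 : ℝ) + p / 2 * (k 2 + k 0 * θ)) ^ 2 + (q - p ^ 2 / 4) * (k 2 - k 0 * θ) ^ 2) := by
  have hq0 : q ≠ 0 := by
    rintro rfl; simp at hθ
  have hθ' : θ = 1 / q := by field_simp; linarith
  rw [F_Co]
  push_cast
  rw [hS, hT, hθ']
  field_simp
  ring

/-- the real linear form attached to the real eigenvalue -/
noncomputable def ell (N : Matrix (Fin 3) (Fin 3) ℤ) (e : Fin 3 → ℤ) (θ q : ℝ)
    (y : Fin 3 → ℤ) : ℝ :=
  (kap N e y 1 : ℝ) + kap N e y 2 * θ + kap N e y 0 * q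

lemma ell_mul {N : Matrix (Fin 3) (Fin 3) ℤ} {S T : ℤ} (h : N ^ 3 = S • N ^ 2 - T • N + 1)
    {e : Fin 3 → ℤ} (he : F N e ≠ 0) {θ p q : ℝ} (hθ : θ * q = 1) (hS : (S : ℝ) = θ + p)
    (hT : (T : ℝ) = q + θ * p) (y : Fin 3 → ℤ) :
    ell N e θ q (N *ᵥ y) = θ * ell N e θ q y := by
  rw [ell, ell, kap_mul h he]
  obtain ⟨k, hk⟩ : ∃ k, k = kap N e y := ⟨_, rfl⟩
  rw [← hk]
  have h0 : (Co S T *ᵥ k) 0 = k 2 := by
    simp [Co, Matrix.mulVec, dotProduct, Fin.sum_univ_three]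
  have h1 : (Co S T *ᵥ k) 1 = k 0 - T * k 2 := by
    simp [Co, Matrix.mulVec, dotProduct, Fin.sum_univ_three]
    ring
  have h2 : (Co S T *ᵥ k) 2 = k 1 + S * k 2 := by
    simp [Co, Matrix.mulVec, dotProduct, Fin.sum_univ_three]
  rw [h0, h1, h2]
  push_cast
  rw [hS, hT]
  linear_combination (-(k 0 : ℝ)) * hθ

lemma zpow_shift (U : (Matrix (Fin 3) (Fin 3) ℤ)ˣ) (g : (Fin 3 → ℤ) → ℝ) (t : ℝ) (ht : t ≠ 0)
    (hg : ∀ y, g ((U : Matrix (Fin 3) (Fin 3) ℤ) *ᵥ y) = t * g y) (y : Fin 3 → ℤ) (n : ℤ) :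
    g (((U ^ n : (Matrix (Fin 3) (Fin 3) ℤ)ˣ) : Matrix (Fin 3) (Fin 3) ℤ) *ᵥ y) = t ^ n * g y := by
  induction n using Int.induction_on with
  | zero => simp
  | succ i ih =>
    have h1 : U ^ ((i : ℤ) + 1) = U * U ^ (i : ℤ) := by
      rw [add_comm, _root_.zpow_add, zpow_one]
    rw [h1, Units.val_mul, ← Matrix.mulVec_mulVec, hg, ih, zpow_add₀ ht, zpow_one]
    ring
  | pred i ih =>
    have h1 : U ^ (-(i : ℤ)) = U * U ^ (-(i : ℤ) - 1) := by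
      rw [← _root_.zpow_one_add]
      congr 1
      ring
    rw [h1, Units.val_mul, ← Matrix.mulVec_mulVec, hg] at ih
    have h2 : t ^ (-(i : ℤ)) = t * t ^ (-(i : ℤ) - 1) := by
      rw [← zpow_one_add₀ ht]
      congr 1
      ring
    rw [h2, mul_assoc] at ih
    exact mul_left_cancel₀ ht ih

/-- Key lemma: if some integer vector has a smaller nonzero value of the cubic form than
`e = (1,0,0)`, then `q` is bounded. -/
theorem key {N : Matrix (Fin 3) (Fin 3) ℤ} (hdet : N.det = 1) {S T : ℤ}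
    (h : N ^ 3 = S • N ^ 2 - T • N + 1)
    {θ p q : ℝ} (hθ : θ * q = 1) (hS : (S : ℝ) = θ + p)
    (hT : (T : ℝ) = q + θ * p) (hη : 1 / 2 ≤ q - p ^ 2 / 4)
    (he : F N ![1, 0, 0] ≠ 0) {x : Fin 3 → ℤ} (hx0 : F N x ≠ 0)
    (hx : |F N x| < |F N ![1, 0, 0]|) : q < 256 * ((|F N ![1, 0, 0]| : ℤ) : ℝ) ^ 6 := by
  by_contra hq
  push Not at hq
  obtain ⟨D, hD⟩ : ∃ D, D = F N ![1, 0, 0] := ⟨_, rfl⟩
  obtain ⟨B, hB⟩ : ∃ B : ℝ, B = ((|D| : ℤ) : ℝ) ^ 3 := ⟨_, rfl⟩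
  have hD0 : D ≠ 0 := hD ▸ he
  have hD1 : (1 : ℝ) ≤ ((|D| : ℤ) : ℝ) := by
    exact_mod_cast Int.one_le_abs hD0
  have hB1 : 1 ≤ B := by rw [hB]; exact one_le_pow₀ hD1
  have hq' : 256 * B ^ 2 ≤ q := by
    rw [hB, ← pow_mul]; rw [hD]; exact hq
  have hq0 : 0 < q := by nlinarith
  have hq1 : 1 < q := by nlinarith
  have hθ0 : θ ≠ 0 := by rintro rfl; simp at hθ
  obtain ⟨U, hU⟩ : ∃ U : (Matrix (Fin 3) (Fin 3) ℤ)ˣ, (U : Matrix (Fin 3) (Fin 3) ℤ) = N := by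
    have : IsUnit N := by
      rw [Matrix.isUnit_iff_isUnit_det, hdet]; exact isUnit_one
    exact ⟨this.unit, this.unit_spec⟩
  have hFU : ∀ y, ((F N ((U : Matrix (Fin 3) (Fin 3) ℤ) *ᵥ y) : ℤ) : ℝ) = 1 * (F N y : ℝ) := by
    intro y
    rw [hU, F_comm (Commute.refl N), hdet]
    push_cast; ring
  have hFn : ∀ n : ℤ, F N (((U ^ n : (Matrix (Fin 3) (Fin 3) ℤ)ˣ) : Matrix (Fin 3) (Fin 3) ℤ) *ᵥ x)
      = F N x := by
    intro n
    have := zpow_shift U (fun y => (F N y : ℝ)) 1 one_ne_zero hFU x n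
    simp only [_root_.one_zpow, one_mul] at this
    exact_mod_cast this
  have hln : ∀ n : ℤ, ell N ![1, 0, 0] θ q
      (((U ^ n : (Matrix (Fin 3) (Fin 3) ℤ)ˣ) : Matrix (Fin 3) (Fin 3) ℤ) *ᵥ x)
      = θ ^ n * ell N ![1, 0, 0] θ q x := by
    intro n
    refine zpow_shift U _ θ hθ0 ?_ x n
    intro y
    rw [hU]
    exact ell_mul h he hθ hS hT y
  -- the linear form does not vanish at `x`
  have hl0 : ell N ![1, 0, 0] θ q x ≠ 0 := by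
    intro h0
    have h1 := F_kap h he x
    have h2 := F_real hθ hS hT (kap N ![1, 0, 0] x)
    rw [← h1] at h2
    have h3 : ((kap N ![1, 0, 0] x 1 : ℝ) + kap N ![1, 0, 0] x 2 * θ + kap N ![1, 0, 0] x 0 * q)
      = 0 := h0
    rw [h3, zero_mul] at h2
    have h4 : (F N ![1, 0, 0]) ^ 2 * F N x = 0 := by exact_mod_cast h2
    rcases mul_eq_zero.1 h4 with h5 | h5
    · exact he (pow_eq_zero_iff (by norm_num) |>.1 h5)
    · exact hx0 h5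
  obtain ⟨n, hn1, hn2⟩ := exists_mem_Ico_zpow (x := 2 * |ell N ![1, 0, 0] θ q x|) (y := q)
    (by positivity) hq1
  obtain ⟨y, hy⟩ : ∃ y, y = ((U ^ n : (Matrix (Fin 3) (Fin 3) ℤ)ˣ) : Matrix (Fin 3) (Fin 3) ℤ) *ᵥ x :=
    ⟨_, rfl⟩
  have hFy : F N y = F N x := by rw [hy]; exact hFn n
  have hly : |ell N ![1, 0, 0] θ q y| * q ^ n = |ell N ![1, 0, 0] θ q x| := by
    rw [hy, hln n, abs_mul, abs_zpow]
    have hθq : |θ| ^ n * q ^ n = 1 := by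
      rw [← mul_zpow]
      have : |θ| * q = 1 := by
        rw [← abs_of_pos hq0, ← abs_mul, hθ, abs_one]
      rw [this, _root_.one_zpow]
    calc _ = (|θ| ^ n * q ^ n) * |ell N ![1, 0, 0] θ q x| := by ring
      _ = _ := by rw [hθq, one_mul]
  have hqn : 0 < q ^ n := zpow_pos hq0 n
  obtain ⟨l, hl⟩ : ∃ l, l = ell N ![1, 0, 0] θ q y := ⟨_, rfl⟩
  rw [← hl] at hly
  have hl1 : 1 / 2 ≤ |l| := by
    rw [← hly] at hn1
    have : 1 * q ^ n ≤ (2 * |l|) * q ^ n := by linarith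
    have := le_of_mul_le_mul_right this hqn
    linarith
  have hl2 : |l| < q / 2 := by
    rw [← hly, zpow_add_one₀ hq0.ne'] at hn2
    have : (2 * |l|) * q ^ n < q * q ^ n := by linarith
    have := lt_of_mul_lt_mul_right this hqn.le
    linarith
  have h1 := F_kap h he y
  have h2 := F_real hθ hS hT (kap N ![1, 0, 0] y)
  have h3 : ((kap N ![1, 0, 0] y 1 : ℝ) + kap N ![1, 0, 0] y 2 * θ + kap N ![1, 0, 0] y 0 * q)
    = l := hl.symm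
  obtain ⟨k, hk⟩ : ∃ k, k = kap N ![1, 0, 0] y := ⟨_, rfl⟩
  have hKk : K N ![1, 0, 0] *ᵥ k = D • y := by rw [hk, K_kap, hD]
  rw [← hk] at h1 h2 h3
  rw [← h3] at hl1 hl2
  have h4 : |(k 1 : ℝ) + k 2 * θ + k 0 * q| *
      (((k 1 : ℝ) + p / 2 * (k 2 + k 0 * θ)) ^ 2 + (q - p ^ 2 / 4) * (k 2 - k 0 * θ) ^ 2) < B := by
    have h5 : |(k 1 : ℝ) + k 2 * θ + k 0 * q| *
      (((k 1 : ℝ) + p / 2 * (k 2 + k 0 * θ)) ^ 2 + (q - p ^ 2 / 4) * (k 2 - k 0 * θ) ^ 2)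
        = |(F (Co S T) k : ℝ)| := by
      rw [h2, abs_mul]
      congr 1
      rw [abs_of_nonneg]
      positivity
    rw [h5, ← h1, hFy, ← hD, hB]
    have h6 : |D ^ 2 * F N x| < |D| ^ 3 := by
      rw [abs_mul, abs_pow]
      calc |D| ^ 2 * |F N x| < |D| ^ 2 * |D| := by
            apply mul_lt_mul_of_pos_left _ (by positivity)
            rw [hD]; exact hx
        _ = |D| ^ 3 := by ring
    have h7 : ((|D ^ 2 * F N x| : ℤ) : ℝ) < ((|D| ^ 3 : ℤ) : ℝ) := by exact_mod_cast h6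
    push_cast at h7 ⊢
    exact h7
  obtain ⟨hk2, hk0⟩ := real_core B q θ p hB1 hq' hθ hη (k 1) (k 2) (k 0) hl1 hl2 h4
  -- now `D y = k₁ N e`
  have h5 : D • y = (k 1) • (N *ᵥ ![1, 0, 0]) := by
    rw [← hKk]
    ext i
    simp [Matrix.mulVec, dotProduct, Fin.sum_univ_three, hk2, hk0, K]
    ring
  -- apply the inverse of `N`
  have h6 : D • ((U⁻¹ : (Matrix (Fin 3) (Fin 3) ℤ)ˣ) : Matrix (Fin 3) (Fin 3) ℤ) *ᵥ y =
      (k 1) • ![1, 0, 0] := by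
    have h7 := congrArg (fun v => ((U⁻¹ : (Matrix (Fin 3) (Fin 3) ℤ)ˣ) : Matrix (Fin 3) (Fin 3) ℤ) *ᵥ v) h5
    simp only [Matrix.mulVec_smul] at h7
    rw [h7, Matrix.mulVec_mulVec, ← hU, ← Units.val_mul, inv_mul_cancel,
      Units.val_one, Matrix.one_mulVec]
  have h7 : D ∣ k 1 := by
    have h8 := congrFun h6 0
    simp only [Pi.smul_apply, smul_eq_mul] at h8
    exact ⟨_, by rw [h8]; simp⟩
  obtain ⟨m, hm⟩ := h7
  have h8 : D ^ 2 * F N x = D ^ 3 * m ^ 3 := by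
    rw [hD, ← hFy, h1, F_Co, hk2, hk0, hm, ← hD]
    ring
  have h9 : F N x = D * m ^ 3 := by
    have : D ^ 2 * F N x = D ^ 2 * (D * m ^ 3) := by rw [h8]; ring
    exact mul_left_cancel₀ (pow_ne_zero 2 hD0) this
  have hm0 : m ≠ 0 := by
    rintro rfl
    apply hx0
    rw [h9]; ring
  rw [← hD, h9, abs_mul, abs_pow] at hx
  have h10 : 1 ≤ |m| ^ 3 := one_le_pow₀ (Int.one_le_abs hm0)
  nlinarith [abs_nonneg D]

end Pool.Agent.H515R2.Karp
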