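import Mathlib
import Pool.Agent.H515R2.KarpCore

set_option autoImplicit false

namespace Pool.Agent.H515R2.Karp

open Matrix Polynomial

/-- second coefficient of the characteristic polynomial -/
def sec (A : Matrix (Fin 3) (Fin 3) ℤ) : ℤ :=
  A 0 0 * A 1 1 - A 0 1 * A 1 0 + (A 0 0 * A 2 2 - A 0 2 * A 2 0) + (A 1 1 * A 2 2 - A 1 2 * A 2 1)

lemma charpoly3 (A : Matrix (Fin 3) (Fin 3) ℤ) :
    A.charpoly = X ^ 3 - C A.trace * X ^ 2 + C (sec A) * X - C A.det := by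
  rw [Matrix.charpoly, Matrix.det_fin_three, Matrix.trace_fin_three, sec, Matrix.det_fin_three]
  simp
  ring

lemma cayley (A : Matrix (Fin 3) (Fin 3) ℤ) (h : A.det = 1) :
    A ^ 3 = A.trace • A ^ 2 - sec A • A + 1 := by
  have h1 := Matrix.aeval_self_charpoly A
  rw [charpoly3, h] at h1
  simp only [map_sub, map_add, map_mul, aeval_X_pow, aeval_C, aeval_X, map_one] at h1
  have h2 : (algebraMap ℤ (Matrix (Fin 3) (Fin 3) ℤ)) A.trace * A ^ 2 = A.trace • A ^ 2 := by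
    rw [Algebra.smul_def]
  have h3 : (algebraMap ℤ (Matrix (Fin 3) (Fin 3) ℤ)) (sec A) * A = sec A • A := by
    rw [Algebra.smul_def]
  rw [h2, h3] at h1
  have h4 : A ^ 3 - (A.trace • A ^ 2 - sec A • A + 1) = 0 := by
    rw [← h1]; abel
  exact sub_eq_zero.1 h4

lemma aux_big {G q p θ : ℝ} (hG : 1 ≤ G) (hq : G ^ 2 + 100 ≤ q) (hθ : θ * q = 1)
    (hE : 0 < q - p ^ 2 / 4) : 0 < θ ∧ θ ≤ 1 / 100 ∧ |θ * p| ≤ 1 / 5 := by
  have hq0 : 0 < q := by nlinarith
  have hθ0 : 0 < θ := by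
    by_contra h
    push Not at h
    nlinarith
  have h1 : θ ≤ 1 / 100 := by
    by_contra h
    push Not at h
    nlinarith
  refine ⟨hθ0, h1, ?_⟩
  apply abs_le_of_sq_le_sq _ (by norm_num)
  have h2 : (θ * p) ^ 2 = θ ^ 2 * p ^ 2 := by ring
  rw [h2]
  have h3 : θ ^ 2 * p ^ 2 ≤ θ ^ 2 * (4 * q) := by
    apply mul_le_mul_of_nonneg_left _ (by positivity)
    linarith
  have h4 : θ ^ 2 * (4 * q) = 4 * θ := by
    calc θ ^ 2 * (4 * q) = 4 * θ * (θ * q) := by ring
      _ = _ := by rw [hθ]; ring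
  linarith

/-- the boundary case `4T = S²` : a square root of `N` -/
lemma boundary {N : Matrix (Fin 3) (Fin 3) ℤ} {s : ℤ} (hs : 1 ≤ s)
    (h : N ^ 3 = (-(2 * s)) • N ^ 2 - (s ^ 2) • N + 1) {θ : ℝ} (hθ0 : 0 < θ)
    (hθ : θ * (θ + s) ^ 2 = 1)
    (he : F N ![1, 0, 0] ≠ 0) {x : Fin 3 → ℤ} (hx0 : F N x ≠ 0)
    (hx : |F N x| < |F N ![1, 0, 0]|) : (s : ℝ) < 256 * ((|F N ![1, 0, 0]| : ℤ) : ℝ) ^ 6 := by
  have hN3 : N ^ 3 + (2 * s) • N ^ 2 + (s ^ 2) • N = 1 := by
    rw [h, neg_smul]; abel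
  obtain ⟨V, hV⟩ : ∃ V, V = N ^ 2 + s • N := ⟨_, rfl⟩
  have hV1 : V * (N + s • 1) = 1 := by
    have e1 : N ^ 2 * N = N ^ 3 := by rw [← pow_succ]
    have e2 : N * N = N ^ 2 := by rw [← pow_two]
    calc V * (N + s • 1) = N ^ 3 + (2 * s) • N ^ 2 + (s ^ 2) • N := by
          rw [hV]
          simp only [add_mul, mul_add, smul_mul_assoc, mul_smul_comm, mul_one, smul_add, e1, e2]
          simp only [smul_smul, two_mul, add_smul, pow_two s]
          abel
      _ = 1 := hN3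
  have hVN : V = N * (N + s • 1) := by
    rw [hV, mul_add, mul_smul_comm, mul_one, ← pow_two]
  have hc : Commute V N := by
    rw [hV]
    exact ((Commute.refl N).pow_left 2).add_left ((Commute.refl N).smul_left s)
  have hV2 : V ^ 2 = N := by
    calc V ^ 2 = V * (N * (N + s • 1)) := by rw [pow_two]; congr 1
      _ = (V * N) * (N + s • 1) := by rw [mul_assoc]
      _ = (N * V) * (N + s • 1) := by rw [hc.eq]
      _ = N * (V * (N + s • 1)) := by rw [mul_assoc]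
      _ = N := by rw [hV1, mul_one]
  have hV3 : V ^ 3 = (0 : ℤ) • V ^ 2 - s • V + 1 := by
    have : V ^ 3 + s • V = 1 := by
      rw [← hV1, mul_add, mul_smul_comm, mul_one, pow_succ, hV2, hc.eq]
    rw [← this]; simp
  have hK : ∀ y, K N y = K V y * !![1, 0, 0; 0, 0, 1; 0, 1, -s] := by
    intro y
    have h4 : N ^ 2 = V - s • V ^ 2 := by
      have e : V ^ 4 = V * V ^ 3 := by rw [← pow_succ']
      calc N ^ 2 = V ^ 4 := by rw [← hV2, ← pow_mul]
        _ = V - s • V ^ 2 := by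
          rw [e, hV3]
          simp only [zero_smul, zero_sub, mul_add, mul_neg, mul_smul_comm, mul_one, ← pow_two]
          abel
    ext i j
    rw [Matrix.mul_apply, Fin.sum_univ_three]
    fin_cases j
    · simp [K]
    · simp [K, hV2]
    · have h5 : (N ^ 2) *ᵥ y = V *ᵥ y - s • (V ^ 2 *ᵥ y) := by
        rw [h4, Matrix.sub_mulVec, Matrix.smul_mulVec]
      have h6 : K N y i 2 = (V *ᵥ y) i - s * (V ^ 2 *ᵥ y) i := by
        have h7 := congrFun h5 i
        simp only [Pi.sub_apply, Pi.smul_apply, smul_eq_mul] at h7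
        rw [← h7]; rfl
      have h8 : K V y i 1 = (V *ᵥ y) i := by simp [K]
      have h9 : K V y i 2 = (V ^ 2 *ᵥ y) i := by simp [K]
      change K N y i 2 = _
      rw [h6, h8, h9]
      simp
      ring
  have hF : ∀ y, F N y = - F V y := by
    intro y
    rw [F, hK y, Matrix.det_mul]
    have : (!![1, 0, 0; 0, 0, 1; 0, 1, -s] : Matrix (Fin 3) (Fin 3) ℤ).det = -1 := by
      rw [Matrix.det_fin_three]; simp
    rw [this, F]; ring
  have heV : F V ![1, 0, 0] ≠ 0 := by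
    intro h0; apply he; rw [hF, h0, neg_zero]
  have hdetV : V.det = 1 := by
    have h5 := congrArg Matrix.det (mul_K hV3 ![1, 0, 0])
    rw [Matrix.det_mul, Matrix.det_mul] at h5
    have h6 : (Co 0 s).det = 1 := by
      rw [Co, Matrix.det_fin_three]; simp
    rw [h6, mul_one] at h5
    have h7 : V.det * F V ![1, 0, 0] = 1 * F V ![1, 0, 0] := by
      rw [one_mul]; exact h5
    exact mul_right_cancel₀ heV h7
  have hsR : (1 : ℝ) ≤ s := by exact_mod_cast hs
  obtain ⟨u, hu⟩ : ∃ u : ℝ, u = θ + s := ⟨_, rfl⟩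
  obtain ⟨v, hv⟩ : ∃ v : ℝ, v = u * θ := ⟨_, rfl⟩
  rw [← hu] at hθ
  have hvu : v * u = 1 := by rw [hv, ← hθ]; ring
  have hu1 : 1 ≤ u := by rw [hu]; linarith
  have hv0 : 0 < v := by rw [hv]; positivity
  have hv1 : v ≤ 1 := by
    by_contra hcon
    push Not at hcon
    nlinarith
  have hfin := key (N := V) hdetV hV3 (θ := v) (p := -v) (q := u) hvu (by push_cast; ring)
    (by
      have e1 : v * v = θ := by
        rw [hv]
        calc u * θ * (u * θ) = (θ * u ^ 2) * θ := by ring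
          _ = θ := by rw [hθ]; ring
      have : v * -v = -θ := by rw [← e1]; ring
      rw [this, hu]; ring)
    (by nlinarith) heV (x := x)
    (by intro h0; apply hx0; rw [hF, h0, neg_zero])
    (by
      have e1 : |F V x| = |F N x| := by rw [hF, abs_neg]
      have e2 : |F V ![1, 0, 0]| = |F N ![1, 0, 0]| := by rw [hF ![1, 0, 0], abs_neg]
      rw [e1, e2]; exact hx)
  have e2 : |F V ![1, 0, 0]| = |F N ![1, 0, 0]| := by rw [hF ![1, 0, 0], abs_neg]
  rw [e2] at hfin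
  linarith

/-- the bound -/
lemma bound {N : Matrix (Fin 3) (Fin 3) ℤ} (hdet : N.det = 1) {S T : ℤ}
    (h : N ^ 3 = S • N ^ 2 - T • N + 1)
    {θ p q : ℝ} (hθ : θ * q = 1) (hS : (S : ℝ) = θ + p)
    (hT : (T : ℝ) = q + θ * p) (hη : 0 < q - p ^ 2 / 4)
    (he : F N ![1, 0, 0] ≠ 0) {x : Fin 3 → ℤ} (hx0 : F N x ≠ 0)
    (hx : |F N x| < |F N ![1, 0, 0]|) :
    q < (256 * ((|F N ![1, 0, 0]| : ℤ) : ℝ) ^ 6) ^ 2 + 100 := by
  by_contra hq
  push Not at hq
  obtain ⟨G, hG⟩ : ∃ G : ℝ, G = 256 * ((|F N ![1, 0, 0]| : ℤ) : ℝ) ^ 6 := ⟨_, rfl⟩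
  rw [← hG] at hq
  have hD1 : (1 : ℝ) ≤ ((|F N ![1, 0, 0]| : ℤ) : ℝ) := by
    exact_mod_cast Int.one_le_abs he
  have hG1 : 1 ≤ G := by
    rw [hG]
    have := one_le_pow₀ hD1 (n := 6)
    linarith
  obtain ⟨hθ0, hθ1, hθp⟩ := aux_big hG1 hq hθ hη
  obtain ⟨hθp1, hθp2⟩ := abs_le.1 hθp
  have hE4 : 4 * (q - p ^ 2 / 4) = ((4 * T - S ^ 2 : ℤ) : ℝ) - 2 * (θ * p) + θ ^ 2 := by
    push_cast
    rw [hS, hT]; ring
  have hθsq : θ ^ 2 ≤ 1 / 100 := by nlinarith
  have hθsq0 : 0 ≤ θ ^ 2 := sq_nonneg θ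
  rcases lt_trichotomy (4 * T - S ^ 2) 0 with hneg | hzero | hpos
  · have h1 : (4 * T - S ^ 2 : ℤ) ≤ -1 := by omega
    have h2 : ((4 * T - S ^ 2 : ℤ) : ℝ) ≤ -1 := by exact_mod_cast h1
    linarith
  · -- the boundary case
    rw [hzero] at hE4
    have hS2 : (S : ℝ) < 1 := by
      have h1 : 0 < -2 * (θ * p) + θ ^ 2 := by
        have := hE4
        push_cast at this
        linarith
      have h2 : 0 < θ * (θ - 2 * p) := by linarith
      have h3 : 0 < θ - 2 * p := by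
        by_contra hcon
        push Not at hcon
        nlinarith
      rw [hS]; linarith
    have hS3 : S ≤ 0 := by
      have : S < 1 := by exact_mod_cast hS2
      omega
    have hSe : ∃ s : ℤ, S = -(2 * s) := by
      have h1 : Even (S ^ 2) := ⟨2 * T, by omega⟩
      have h2 : Even S := by
        rw [Int.even_pow' (by norm_num)] at h1; exact h1
      obtain ⟨s, hs⟩ := h2
      exact ⟨-s, by omega⟩
    obtain ⟨s, rfl⟩ := hSe
    have hTs : T = s ^ 2 := by
      have : 4 * T = 4 * s ^ 2 := by linarith [hzero, show (-(2 * s)) ^ 2 = 4 * s ^ 2 by ring]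
      omega
    subst hTs
    have hs0 : 0 ≤ s := by omega
    have hs1 : 1 ≤ s := by
      rcases hs0.lt_or_eq with h1 | h1
      · omega
      · exfalso
        rw [← h1] at hT
        push_cast at hT
        have : q ≥ 100 := by nlinarith
        linarith
    have hθ3 : θ * (θ + s) ^ 2 = 1 := by
      have h1 : (s : ℝ) ^ 2 = q + θ * p := by exact_mod_cast hT
      have h2 : -(2 * (s : ℝ)) = θ + p := by exact_mod_cast hS
      have h3 : p = -(2 * (s : ℝ)) - θ := by linarith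
      have h4 : q = (s : ℝ) ^ 2 - θ * p := by linarith
      rw [← hθ, h4, h3]
      ring
    have h5 := boundary hs1 h hθ0 hθ3 he hx0 hx
    rw [← hG] at h5
    have hs1R : (1 : ℝ) ≤ s := by exact_mod_cast hs1
    have h6 : (s : ℝ) ^ 2 < G ^ 2 := by
      apply pow_lt_pow_left₀ h5 (by linarith) (by norm_num)
    have h7 : (s : ℝ) ^ 2 = q + θ * p := by exact_mod_cast hT
    linarith
  · have h1 : 3 ≤ 4 * T - S ^ 2 := by
      have h2 : S % 2 = 0 ∨ S % 2 = 1 := by omega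
      rcases h2 with h3 | h3
      · obtain ⟨s, hs⟩ : ∃ s, S = 2 * s := ⟨S / 2, by omega⟩
        rw [hs] at hpos ⊢
        have : (2 * s) ^ 2 = 4 * s ^ 2 := by ring
        rw [this] at hpos ⊢
        omega
      · obtain ⟨s, hs⟩ : ∃ s, S = 2 * s + 1 := ⟨S / 2, by omega⟩
        rw [hs] at hpos ⊢
        have : (2 * s + 1) ^ 2 = 4 * (s ^ 2 + s) + 1 := by ring
        rw [this] at hpos ⊢
        omega
    have h2 : (3 : ℝ) ≤ ((4 * T - S ^ 2 : ℤ) : ℝ) := by exact_mod_cast h1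
    have h3 : 1 / 2 ≤ q - p ^ 2 / 4 := by linarith
    have h4 := key hdet h hθ hS hT h3 he hx0 hx
    rw [← hG] at h4
    nlinarith

end Pool.Agent.H515R2.Karp
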