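import Mathlib

set_option autoImplicit false

namespace Pool.Agent.H515R2.Med

open Finset

/-- the integers `k` with `x < k * D < x + y` -/
def J (x y D : ℕ) : Finset ℕ := Finset.Ioc (x / D) ((x + y - 1) / D)

lemma mem_J {x y D k : ℕ} (hD : 0 < D) (hy : 0 < y) :
    k ∈ J x y D ↔ x < k * D ∧ k * D < x + y := by
  rw [J, Finset.mem_Ioc, Nat.div_lt_iff_lt_mul hD, Nat.le_div_iff_mul_le hD]
  constructor
  · rintro ⟨h1, h2⟩; exact ⟨h1, by omega⟩
  · rintro ⟨h1, h2⟩; exact ⟨h1, by omega⟩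

lemma card_J {x y D : ℕ} (hD : 0 < D) (hy : 0 < y) :
    |((J x y D).card : ℝ) - (y : ℝ) / D| ≤ 1 := by
  have hDR : (0 : ℝ) < D := by exact_mod_cast hD
  have h0 : x / D ≤ (x + y - 1) / D := Nat.div_le_div_right (by omega)
  rw [J, Nat.card_Ioc, Nat.cast_sub h0]
  -- upper and lower bounds for the two quotients
  have a1 : (((x + y - 1) / D : ℕ) : ℝ) * D ≤ x + y - 1 := by
    have h := Nat.div_mul_le_self (x + y - 1) D
    have h2 : (((x + y - 1) / D * D : ℕ) : ℝ) ≤ ((x + y - 1 : ℕ) : ℝ) := by exact_mod_cast h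
    rw [Nat.cast_sub (by omega)] at h2
    push_cast at h2
    exact h2
  have a2 : (x : ℝ) + y ≤ ((((x + y - 1) / D : ℕ) : ℝ) + 1) * D := by
    have h := Nat.lt_div_mul_add (a := x + y - 1) hD
    have h2 : x + y ≤ (x + y - 1) / D * D + D := by omega
    have h3 : ((x + y : ℕ) : ℝ) ≤ (((x + y - 1) / D * D + D : ℕ) : ℝ) := by exact_mod_cast h2
    push_cast at h3
    linarith
  have b1 : ((x / D : ℕ) : ℝ) * D ≤ x := by
    have h := Nat.div_mul_le_self x D
    exact_mod_cast h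
  have b2 : (x : ℝ) + 1 ≤ (((x / D : ℕ) : ℝ) + 1) * D := by
    have h := Nat.lt_div_mul_add (a := x) hD
    have h2 : x + 1 ≤ x / D * D + D := by omega
    have h3 : ((x + 1 : ℕ) : ℝ) ≤ ((x / D * D + D : ℕ) : ℝ) := by exact_mod_cast h2
    push_cast at h3
    linarith
  rw [abs_le]
  constructor
  · have : (y : ℝ) / D - 1 ≤ (((x + y - 1) / D : ℕ) : ℝ) - ((x / D : ℕ) : ℝ) := by
      rw [div_sub_one hDR.ne', div_le_iff₀ hDR]
      nlinarith
    linarith
  · have : (((x + y - 1) / D : ℕ) : ℝ) - ((x / D : ℕ) : ℝ) ≤ (y : ℝ) / D + 1 := by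
      rw [div_add_one hDR.ne', le_div_iff₀ hDR]
      nlinarith
    linarith

/-- number of the primes of `P` dividing `k` -/
def om (P : Finset ℕ) (k : ℕ) : ℕ := (P.filter (· ∣ k)).card

/-- truncated binomial sums -/
lemma bonf (t : ℝ) (ht0 : 0 ≤ t) (ht1 : t ≤ 1) (w : ℕ) : ∀ r : ℕ,
    (Even r → (1 - t) ^ w ≤ ∑ j ∈ range (r + 1), (-t) ^ j * (w.choose j : ℝ)) ∧
    (Odd r → ∑ j ∈ range (r + 1), (-t) ^ j * (w.choose j : ℝ) ≤ (1 - t) ^ w) := by
  induction w with
  | zero =>
    intro r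
    have : ∑ j ∈ range (r + 1), (-t) ^ j * ((0 : ℕ).choose j : ℝ) = 1 := by
      rw [Finset.sum_range_succ']
      simp
    rw [this]
    simp
  | succ w ih =>
    intro r
    rcases r with _ | r
    · constructor
      · intro _
        simp
        exact pow_le_one₀ (by linarith) (by linarith)
      · intro h; exact absurd h (by decide)
    · have key : ∑ j ∈ range (r + 1 + 1), (-t) ^ j * ((w + 1).choose j : ℝ) =
          ∑ j ∈ range (r + 1 + 1), (-t) ^ j * (w.choose j : ℝ) -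
          t * ∑ j ∈ range (r + 1), (-t) ^ j * (w.choose j : ℝ) := by
        rw [Finset.sum_range_succ' _ (r + 1), Finset.sum_range_succ' _ (r + 1), Finset.mul_sum]
        have : ∀ j ∈ range (r + 1), (-t) ^ (j + 1) * (((w + 1).choose (j + 1) : ℕ) : ℝ) =
            (-t) ^ (j + 1) * ((w.choose (j + 1) : ℕ) : ℝ) - t * ((-t) ^ j * (w.choose j : ℝ)) := by
          intro j _
          rw [Nat.choose_succ_succ]
          push_cast
          ring
        rw [Finset.sum_congr rfl this, Finset.sum_sub_distrib]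
        simp
        ring
      rw [key]
      constructor
      · intro he
        have ho : Odd r := by
          rcases Nat.even_or_odd r with h | h
          · exact absurd he (by rw [Nat.even_add_one]; simpa using h)
          · exact h
        have h1 := (ih (r + 1)).1 he
        have h2 := (ih r).2 ho
        have h3 := mul_le_mul_of_nonneg_left h2 ht0
        have h4 : (1 - t) ^ (w + 1) = (1 - t) ^ w - t * (1 - t) ^ w := by ring
        rw [h4]; linarith
      · intro ho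
        have he : Even r := by
          rcases Nat.even_or_odd r with h | h
          · exact h
          · exact absurd ho (by rw [Nat.odd_add_one]; simpa using h)
        have h1 := (ih (r + 1)).2 ho
        have h2 := (ih r).1 he
        have h3 := mul_le_mul_of_nonneg_left h2 ht0
        have h4 : (1 - t) ^ (w + 1) = (1 - t) ^ w - t * (1 - t) ^ w := by ring
        rw [h4]; linarith

lemma choose_om (P : Finset ℕ) (k j : ℕ) :
    ((om P k).choose j : ℝ) = ∑ e ∈ P.powersetCard j, (if ∀ p ∈ e, p ∣ k then (1 : ℝ) else 0) := by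
  rw [Finset.sum_ite, Finset.sum_const_zero, add_zero, Finset.sum_const, nsmul_eq_mul, mul_one]
  congr 1
  have : (P.powersetCard j).filter (fun e => ∀ p ∈ e, p ∣ k) =
      (P.filter (· ∣ k)).powersetCard j := by
    ext e
    simp only [Finset.mem_filter, Finset.mem_powersetCard]
    constructor
    · rintro ⟨⟨h1, h2⟩, h3⟩
      refine ⟨fun p hp => ?_, h2⟩
      rw [Finset.mem_filter]
      exact ⟨h1 hp, h3 p hp⟩
    · rintro ⟨h1, h2⟩
      refine ⟨⟨fun p hp => (Finset.mem_filter.1 (h1 hp)).1, h2⟩, fun p hp => ?_⟩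
      exact (Finset.mem_filter.1 (h1 hp)).2
  rw [this, Finset.card_powersetCard, om]

lemma prod_dvd_iff {e : Finset ℕ} (he : ∀ p ∈ e, p.Prime) (k : ℕ) :
    (∏ p ∈ e, p) ∣ k ↔ ∀ p ∈ e, p ∣ k := by
  constructor
  · intro h p hp
    exact (Finset.dvd_prod_of_mem _ hp).trans h
  · intro h
    exact Finset.prod_primes_dvd k (fun p hp => (he p hp).prime) h

lemma J_filter {x y d : ℕ} (hd : 0 < d) (hy : 0 < y) {e : Finset ℕ} (he : ∀ p ∈ e, p.Prime) :
    ((J x y d).filter (fun k => ∀ p ∈ e, p ∣ k)).card = (J x y (d * ∏ p ∈ e, p)).card := by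
  have hE : 0 < ∏ p ∈ e, p := Finset.prod_pos (fun p hp => (he p hp).pos)
  symm
  apply Finset.card_bij (fun j _ => j * ∏ p ∈ e, p)
  · intro j hj
    rw [mem_J (Nat.mul_pos hd hE) hy] at hj
    rw [Finset.mem_filter, mem_J hd hy]
    refine ⟨⟨?_, ?_⟩, (prod_dvd_iff he _).1 (Dvd.intro_left _ rfl)⟩
    · calc x < j * (d * ∏ p ∈ e, p) := hj.1
        _ = _ := by ring
    · calc j * (∏ p ∈ e, p) * d = j * (d * ∏ p ∈ e, p) := by ring
        _ < _ := hj.2
  · intro j _ j' _ h
    exact Nat.eq_of_mul_eq_mul_right hE h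
  · intro k hk
    rw [Finset.mem_filter, mem_J hd hy] at hk
    obtain ⟨⟨h1, h2⟩, h3⟩ := hk
    obtain ⟨j, hj⟩ := (prod_dvd_iff he k).2 h3
    refine ⟨j, ?_, by rw [hj]; ring⟩
    rw [mem_J (Nat.mul_pos hd hE) hy]
    rw [hj] at h1 h2
    constructor
    · calc x < (∏ p ∈ e, p) * j * d := h1
        _ = _ := by ring
    · calc j * (d * ∏ p ∈ e, p) = (∏ p ∈ e, p) * j * d := by ring
        _ < _ := h2

lemma sum_choose_le (m r : ℕ) : ∑ j ∈ range (r + 1), (m.choose j : ℝ) ≤ ((m : ℝ) + 1) ^ r := by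
  rw [add_pow]
  apply Finset.sum_le_sum
  intro j hj
  rw [Finset.mem_range] at hj
  rw [one_pow, mul_one]
  have h1 : (m.choose j : ℝ) ≤ (m : ℝ) ^ j := by exact_mod_cast Nat.choose_le_pow m j
  have h2 : (1 : ℝ) ≤ (r.choose j : ℝ) := by
    exact_mod_cast Nat.choose_pos (by omega)
  calc (m.choose j : ℝ) ≤ (m : ℝ) ^ j := h1
    _ = (m : ℝ) ^ j * 1 := by ring
    _ ≤ _ := mul_le_mul_of_nonneg_left h2 (by positivity)

lemma sum_small (P : Finset ℕ) (r : ℕ) (g : Finset ℕ → ℝ) :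
    ∑ j ∈ range (r + 1), ∑ e ∈ P.powersetCard j, g e =
      ∑ e ∈ P.powerset.filter (fun e => e.card ≤ r), g e := by
  rw [← Finset.sum_fiberwise_of_maps_to (s := P.powerset.filter (fun e => e.card ≤ r))
    (t := range (r + 1)) (g := fun e => e.card)]
  · apply Finset.sum_congr rfl
    intro j hj
    rw [Finset.mem_range] at hj
    apply Finset.sum_congr _ (fun _ _ => rfl)
    ext e
    simp only [Finset.mem_powersetCard, Finset.mem_filter, Finset.mem_powerset]
    constructor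
    · rintro ⟨h1, h2⟩; exact ⟨⟨h1, by omega⟩, h2⟩
    · rintro ⟨⟨h1, _⟩, h2⟩; exact ⟨h1, h2⟩
  · intro e he
    rw [Finset.mem_filter] at he
    rw [Finset.mem_range]
    omega

/-- Brun type upper bound for `∑ (1-t)^ω(k)` over the `k` with `x < k d < x + y` -/
theorem brun {P : Finset ℕ} (hP : ∀ p ∈ P, p.Prime) {t : ℝ} (ht0 : 0 ≤ t) (ht1 : t ≤ 1) {r : ℕ}
    (hr : Even r) {x y d : ℕ} (hd : 0 < d) (hy : 0 < y) :
    ∑ k ∈ J x y d, (1 - t) ^ (om P k) ≤
      ((y : ℝ) / d) * (∏ p ∈ P, (1 - t / p) + (1 / 4) ^ r * ∏ p ∈ P, (1 + 4 / (p : ℝ))) +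
        ((P.card : ℝ) + 1) ^ r := by
  have hdR : (0 : ℝ) < d := by exact_mod_cast hd
  have hyd : (0 : ℝ) ≤ (y : ℝ) / d := by positivity
  -- first step: the truncated sums
  have h1 : ∑ k ∈ J x y d, (1 - t) ^ (om P k) ≤
      ∑ j ∈ range (r + 1), ∑ e ∈ P.powersetCard j, (-t) ^ j * ((J x y (d * ∏ p ∈ e, p)).card : ℝ) := by
    calc ∑ k ∈ J x y d, (1 - t) ^ (om P k) ≤
        ∑ k ∈ J x y d, ∑ j ∈ range (r + 1), (-t) ^ j * ((om P k).choose j : ℝ) :=
          Finset.sum_le_sum (fun k _ => (bonf t ht0 ht1 (om P k) r).1 hr)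
      _ = ∑ j ∈ range (r + 1), ∑ k ∈ J x y d, (-t) ^ j * ((om P k).choose j : ℝ) :=
          Finset.sum_comm
      _ = _ := by
        apply Finset.sum_congr rfl
        intro j _
        have : ∀ k ∈ J x y d, (-t) ^ j * ((om P k).choose j : ℝ) =
            ∑ e ∈ P.powersetCard j, (-t) ^ j * (if ∀ p ∈ e, p ∣ k then (1 : ℝ) else 0) := by
          intro k _
          rw [choose_om, Finset.mul_sum]
        rw [Finset.sum_congr rfl this, Finset.sum_comm]
        apply Finset.sum_congr rfl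
        intro e he
        rw [← Finset.mul_sum]
        congr 1
        rw [Finset.sum_ite, Finset.sum_const_zero, add_zero, Finset.sum_const, nsmul_eq_mul,
          mul_one]
        rw [J_filter hd hy (fun p hp => hP p ((Finset.mem_powersetCard.1 he).1 hp))]
  -- second step: counting with error one
  have h2 : ∑ j ∈ range (r + 1), ∑ e ∈ P.powersetCard j,
        (-t) ^ j * ((J x y (d * ∏ p ∈ e, p)).card : ℝ) ≤
      ∑ j ∈ range (r + 1), ∑ e ∈ P.powersetCard j, (((y : ℝ) / d) * ∏ p ∈ e, (-t / p) + 1) := by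
    apply Finset.sum_le_sum
    intro j _
    apply Finset.sum_le_sum
    intro e he
    rw [Finset.mem_powersetCard] at he
    have hep : ∀ p ∈ e, p.Prime := fun p hp => hP p (he.1 hp)
    have hE : 0 < ∏ p ∈ e, p := Finset.prod_pos (fun p hp => (hep p hp).pos)
    have hc := card_J (x := x) (Nat.mul_pos hd hE) hy
    have h3 : ((y : ℝ) / d) * ∏ p ∈ e, (-t / p) = (-t) ^ j * ((y : ℝ) / ((d * ∏ p ∈ e, p : ℕ) : ℝ)) := by
      rw [Finset.prod_div_distrib, Finset.prod_const, he.2]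
      push_cast
      rw [div_mul_div_comm]
      ring
    rw [h3]
    have h4 : |(-t) ^ j| ≤ 1 := by
      rw [abs_pow, abs_neg, abs_of_nonneg ht0]
      exact pow_le_one₀ ht0 ht1
    have h5 : |(-t) ^ j * (((J x y (d * ∏ p ∈ e, p)).card : ℝ) -
        (y : ℝ) / ((d * ∏ p ∈ e, p : ℕ) : ℝ))| ≤ 1 := by
      rw [abs_mul]
      exact mul_le_one₀ h4 (abs_nonneg _) hc
    have h6 := (abs_le.1 h5).2
    linarith
  -- third step
  have h3 : ∑ j ∈ range (r + 1), ∑ e ∈ P.powersetCard j, (((y : ℝ) / d) * ∏ p ∈ e, (-t / p) + 1) =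
      ((y : ℝ) / d) * (∑ e ∈ P.powerset.filter (fun e => e.card ≤ r), ∏ p ∈ e, (-t / (p : ℝ))) +
        ∑ j ∈ range (r + 1), ((P.card).choose j : ℝ) := by
    simp only [Finset.sum_add_distrib, ← Finset.mul_sum]
    rw [sum_small]
    simp [Finset.card_powersetCard]
  have h4 : ∑ e ∈ P.powerset.filter (fun e => e.card ≤ r), ∏ p ∈ e, (-t / (p : ℝ)) ≤
      ∏ p ∈ P, (1 - t / p) + (1 / 4) ^ r * ∏ p ∈ P, (1 + 4 / (p : ℝ)) := by
    have e1 : ∏ p ∈ P, (1 - t / (p : ℝ)) = ∑ e ∈ P.powerset, ∏ p ∈ e, (-t / (p : ℝ)) := by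
      rw [← Finset.prod_one_add]
      apply Finset.prod_congr rfl
      intro p _
      ring
    have e2 : ∏ p ∈ P, (1 + 4 / (p : ℝ)) = ∑ e ∈ P.powerset, ∏ p ∈ e, (4 / (p : ℝ)) := by
      rw [← Finset.prod_one_add]
    have e3 := Finset.sum_filter_add_sum_filter_not P.powerset (fun e => e.card ≤ r)
      (fun e => ∏ p ∈ e, (-t / (p : ℝ)))
    have e4 : -(∑ e ∈ P.powerset.filter (fun e => ¬ e.card ≤ r), ∏ p ∈ e, (-t / (p : ℝ))) ≤
        (1 / 4) ^ r * ∑ e ∈ P.powerset, ∏ p ∈ e, (4 / (p : ℝ)) := by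
      rw [← Finset.sum_neg_distrib, Finset.mul_sum]
      refine le_trans (b := ∑ e ∈ P.powerset.filter (fun e => ¬ e.card ≤ r),
        (1 / 4 : ℝ) ^ r * ∏ p ∈ e, (4 / (p : ℝ))) (Finset.sum_le_sum ?_)
        (Finset.sum_le_sum_of_subset_of_nonneg (Finset.filter_subset _ _) ?_)
      rotate_left
      · intro e _ _
        positivity
      · intro e he
        rw [Finset.mem_filter, Finset.mem_powerset] at he
        have hcard : r ≤ e.card := by omega
        have f1 : -∏ p ∈ e, (-t / (p : ℝ)) ≤ ∏ p ∈ e, (1 / (p : ℝ)) := by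
          apply le_trans (neg_le_abs _)
          rw [Finset.abs_prod]
          apply Finset.prod_le_prod (fun _ _ => abs_nonneg _)
          intro p hp
          rw [abs_div, abs_neg, abs_of_nonneg ht0, Nat.abs_cast]
          exact div_le_div_of_nonneg_right ht1 (Nat.cast_nonneg _)
        have f2 : ∏ p ∈ e, (4 / (p : ℝ)) = 4 ^ e.card * ∏ p ∈ e, (1 / (p : ℝ)) := by
          rw [← Finset.prod_const, ← Finset.prod_mul_distrib]
          apply Finset.prod_congr rfl
          intro p _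
          ring
        rw [f2]
        have f3 : (1 : ℝ) ≤ (1 / 4) ^ r * 4 ^ e.card := by
          calc (1 : ℝ) = (1 / 4) ^ r * 4 ^ r := by
                rw [← mul_pow]; norm_num
            _ ≤ (1 / 4) ^ r * 4 ^ e.card :=
                mul_le_mul_of_nonneg_left (pow_le_pow_right₀ (by norm_num) hcard) (by positivity)
        have f4 : (0 : ℝ) ≤ ∏ p ∈ e, (1 / (p : ℝ)) := by positivity
        calc -∏ p ∈ e, (-t / (p : ℝ)) ≤ 1 * ∏ p ∈ e, (1 / (p : ℝ)) := by rw [one_mul]; exact f1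
          _ ≤ ((1 / 4) ^ r * 4 ^ e.card) * ∏ p ∈ e, (1 / (p : ℝ)) :=
              mul_le_mul_of_nonneg_right f3 f4
          _ = _ := by ring
    rw [e1, e2]
    linarith
  have h5 := sum_choose_le P.card r
  have h6 := mul_le_mul_of_nonneg_left h4 hyd
  linarith

/-- upper bound for `∑ (1+s)^ω(k)` over the `k` with `x < k d < x + y` -/
theorem upper {P : Finset ℕ} (hP : ∀ p ∈ P, p.Prime) {s : ℝ} (hs : 0 ≤ s)
    {x y d : ℕ} (hd : 0 < d) (hy : 0 < y) :
    ∑ k ∈ J x y d, (1 + s) ^ (om P k) ≤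
      ((y : ℝ) / d) * ∏ p ∈ P, (1 + s / p) + (1 + s) ^ P.card := by
  have hdR : (0 : ℝ) < d := by exact_mod_cast hd
  have h1 : ∀ k, (1 + s) ^ (om P k) =
      ∑ e ∈ P.powerset, (if ∀ p ∈ e, p ∣ k then s ^ e.card else 0) := by
    intro k
    rw [Finset.sum_ite, Finset.sum_const_zero, add_zero]
    have : P.powerset.filter (fun e => ∀ p ∈ e, p ∣ k) = (P.filter (· ∣ k)).powerset := by
      ext e
      simp only [Finset.mem_filter, Finset.mem_powerset]
      constructor
      · rintro ⟨h1, h3⟩ p hp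
        rw [Finset.mem_filter]
        exact ⟨h1 hp, h3 p hp⟩
      · intro h1
        exact ⟨fun p hp => (Finset.mem_filter.1 (h1 hp)).1, fun p hp => (Finset.mem_filter.1 (h1 hp)).2⟩
    rw [this, om, ← Finset.prod_const, add_comm]
    rw [Finset.prod_add]
    apply Finset.sum_congr rfl
    intro e _
    simp
  have h2 : ∑ k ∈ J x y d, (1 + s) ^ (om P k) =
      ∑ e ∈ P.powerset, s ^ e.card * ((J x y (d * ∏ p ∈ e, p)).card : ℝ) := by
    rw [Finset.sum_congr rfl (fun k _ => h1 k), Finset.sum_comm]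
    apply Finset.sum_congr rfl
    intro e he
    rw [Finset.mem_powerset] at he
    rw [← J_filter hd hy (fun p hp => hP p (he hp)), Finset.sum_ite, Finset.sum_const_zero,
      add_zero, Finset.sum_const, nsmul_eq_mul]
    ring
  rw [h2]
  have h3 : ∑ e ∈ P.powerset, s ^ e.card * ((J x y (d * ∏ p ∈ e, p)).card : ℝ) ≤
      ∑ e ∈ P.powerset, (((y : ℝ) / d) * ∏ p ∈ e, (s / (p : ℝ)) + s ^ e.card) := by
    apply Finset.sum_le_sum
    intro e he
    rw [Finset.mem_powerset] at he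
    have hep : ∀ p ∈ e, p.Prime := fun p hp => hP p (he hp)
    have hE : 0 < ∏ p ∈ e, p := Finset.prod_pos (fun p hp => (hep p hp).pos)
    have hc := (abs_le.1 (card_J (x := x) (Nat.mul_pos hd hE) hy)).2
    have h3 : ((y : ℝ) / d) * ∏ p ∈ e, (s / (p : ℝ)) =
        s ^ e.card * ((y : ℝ) / ((d * ∏ p ∈ e, p : ℕ) : ℝ)) := by
      rw [Finset.prod_div_distrib, Finset.prod_const]
      push_cast
      rw [div_mul_div_comm]
      ring
    rw [h3, ← mul_add_one]
    apply mul_le_mul_of_nonneg_left _ (by positivity)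
    linarith
  refine h3.trans (le_of_eq ?_)
  rw [Finset.sum_add_distrib, ← Finset.mul_sum, ← Finset.prod_one_add]
  congr 1
  have := Finset.prod_one_add (f := fun _ : ℕ => s) P
  rw [Finset.prod_const] at this
  rw [this]
  apply Finset.sum_congr rfl
  intro e _
  rw [Finset.prod_const]

end Pool.Agent.H515R2.Med
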