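import Mathlib

set_option autoImplicit false

namespace Pool.Agent.H515R2.Med

open Finset

noncomputable def recip : ℕ →* ℝ where
  toFun m := (m : ℝ)⁻¹
  map_one' := by simp
  map_mul' m n := by push_cast; rw [mul_inv]

lemma telescope (N : ℕ) : ∑ m ∈ Finset.Ico 2 (N + 2), (1 : ℝ) / ((m : ℝ) * (m - 1)) ≤ 1 := by
  have h : ∑ m ∈ Finset.Ico 2 (N + 2), (1 : ℝ) / ((m : ℝ) * (m - 1)) = 1 - 1 / ((N : ℝ) + 1) := by
    induction N with
    | zero => simp
    | succ N ih =>
      rw [Finset.sum_Ico_succ_top (by omega), ih]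
      push_cast
      have h1 : (N : ℝ) + 1 ≠ 0 := by positivity
      have h2 : (N : ℝ) + 2 ≠ 0 := by positivity
      have h3 : (N : ℝ) + 2 - 1 = N + 1 := by ring
      have h4 : (N : ℝ) + 1 + 1 = N + 2 := by ring
      rw [h3, h4]
      field_simp
      ring
  rw [h]
  have : 0 ≤ 1 / ((N : ℝ) + 1) := by positivity
  linarith

/-- `∑_{p < N} 1/p ≥ log log N - 1` -/
lemma prime_sum_lower {N : ℕ} (hN : 2 ≤ N) :
    Real.log (Real.log N) - 1 ≤ ∑ p ∈ N.primesBelow, (1 : ℝ) / p := by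
  have hnorm : ∀ {p : ℕ}, p.Prime → ‖recip p‖ < 1 := by
    intro p hp
    have h2 : (2 : ℝ) ≤ p := by exact_mod_cast hp.two_le
    change ‖((p : ℝ))⁻¹‖ < 1
    rw [Real.norm_of_nonneg (by positivity)]
    apply inv_lt_one_of_one_lt₀
    linarith
  have h1 := (EulerProduct.summable_and_hasSum_smoothNumbers_prod_primesBelow_geometric hnorm N).2
  have h2 := (hasSum_subtype_iff_indicator (f := fun m : ℕ => recip m)).1 h1
  have h3 := sum_le_hasSum (Finset.Icc 1 (N - 1)) (fun m _ =>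
    Set.indicator_nonneg (fun m _ => inv_nonneg.2 (Nat.cast_nonneg m)) m) h2
  have h4 : ∑ m ∈ Finset.Icc 1 (N - 1), (N.smoothNumbers).indicator (fun m : ℕ => recip m) m =
      ∑ m ∈ Finset.Icc 1 (N - 1), ((m : ℝ))⁻¹ := by
    apply Finset.sum_congr rfl
    intro m hm
    rw [Finset.mem_Icc] at hm
    rw [Set.indicator_of_mem (Nat.mem_smoothNumbers_of_lt (by omega) (by omega))]
    rfl
  rw [h4] at h3
  have h5 : Real.log N ≤ ∑ m ∈ Finset.Icc 1 (N - 1), ((m : ℝ))⁻¹ := by
    have h6 := log_add_one_le_harmonic (N - 1)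
    rw [harmonic_eq_sum_Icc] at h6
    push_cast at h6
    rw [Nat.cast_sub (by omega)] at h6
    push_cast at h6
    rw [show (N : ℝ) - 1 + 1 = N by ring] at h6
    exact h6
  have hlogpos : 0 < Real.log N := Real.log_pos (by exact_mod_cast (by omega : 1 < N))
  have h7 : Real.log N ≤ ∏ p ∈ N.primesBelow, (1 - recip p)⁻¹ := h5.trans h3
  have hfac : ∀ p ∈ N.primesBelow, (1 - recip p)⁻¹ ≠ 0 := by
    intro p hp
    have hp' := Nat.prime_of_mem_primesBelow hp
    have := hnorm hp'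
    rw [Real.norm_eq_abs] at this
    have h8 := (abs_lt.1 this).2
    exact inv_ne_zero (by linarith)
  have h8 := Real.log_le_log hlogpos h7
  rw [Real.log_prod hfac] at h8
  have h9 : ∑ p ∈ N.primesBelow, Real.log ((1 - recip p)⁻¹) ≤
      ∑ p ∈ N.primesBelow, ((1 : ℝ) / p + 1 / ((p : ℝ) * (p - 1))) := by
    apply Finset.sum_le_sum
    intro p hp
    have hp' := Nat.prime_of_mem_primesBelow hp
    have h2 : (2 : ℝ) ≤ p := by exact_mod_cast hp'.two_le
    have hp1 : (p : ℝ) - 1 ≠ 0 := by linarith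
    have hp0 : (p : ℝ) ≠ 0 := by linarith
    have e1 : (1 - recip p)⁻¹ = (p : ℝ) / (p - 1) := by
      change (1 - ((p : ℝ))⁻¹)⁻¹ = _
      field_simp
    rw [e1]
    refine (Real.log_le_sub_one_of_pos (by apply div_pos <;> linarith)).trans (le_of_eq ?_)
    field_simp
    ring
  rw [Finset.sum_add_distrib] at h9
  have h10 : ∑ p ∈ N.primesBelow, (1 : ℝ) / ((p : ℝ) * (p - 1)) ≤ 1 := by
    refine le_trans ?_ (telescope N)
    apply Finset.sum_le_sum_of_subset_of_nonneg
    · intro p hp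
      have hp' := Nat.prime_of_mem_primesBelow hp
      have hp2 := Nat.lt_of_mem_primesBelow hp
      rw [Finset.mem_Ico]
      exact ⟨hp'.two_le, by omega⟩
    · intro m hm _
      rw [Finset.mem_Ico] at hm
      have : (2 : ℝ) ≤ m := by exact_mod_cast hm.1
      apply div_nonneg zero_le_one
      nlinarith
  linarith

/-- the primes `p` with `w < p < N` -/
def PP (w N : ℕ) : Finset ℕ := N.primesBelow.filter (w < ·)

lemma PP_sum_lower {w N : ℕ} (hN : 2 ≤ N) :
    Real.log (Real.log N) - 2 - Real.log w ≤ ∑ p ∈ PP w N, (1 : ℝ) / p := by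
  have h1 := prime_sum_lower hN
  have h2 := Finset.sum_filter_add_sum_filter_not N.primesBelow (w < ·) (fun p => (1 : ℝ) / p)
  have h3 : ∑ p ∈ N.primesBelow.filter (fun p => ¬ w < p), (1 : ℝ) / p ≤ 1 + Real.log w := by
    have h4 := harmonic_le_one_add_log w
    rw [harmonic_eq_sum_Icc] at h4
    push_cast at h4
    refine le_trans ?_ h4
    simp only [one_div]
    apply Finset.sum_le_sum_of_subset_of_nonneg
    · intro p hp
      rw [Finset.mem_filter] at hp
      have hp' := Nat.prime_of_mem_primesBelow hp.1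
      rw [Finset.mem_Icc]
      exact ⟨hp'.one_lt.le, by omega⟩
    · intro m _ _
      positivity
  rw [PP]
  linarith

/-- a set of primes larger than `w` with prescribed sum of reciprocals -/
lemma exists_P (w σ : ℕ) (hw : 1 ≤ w) : ∃ P : Finset ℕ, (∀ p ∈ P, p.Prime) ∧ (∀ p ∈ P, w < p) ∧
    2 * (σ : ℝ) ≤ ∑ p ∈ P, (1 : ℝ) / p ∧ ∑ p ∈ P, (1 : ℝ) / p ≤ 2 * (σ : ℝ) + 1 ∧
    (P.card : ℝ) ≤ Real.exp (w * Real.exp (2 * σ + 2)) + 1 := by
  have hwR : (1 : ℝ) ≤ w := by exact_mod_cast hw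
  obtain ⟨E, hE⟩ : ∃ E : ℝ, E = Real.exp (w * Real.exp (2 * σ + 2)) := ⟨_, rfl⟩
  have hexp2 : 1 ≤ Real.exp (2 * (σ : ℝ) + 2) := Real.one_le_exp (by positivity)
  have hE2 : 2 ≤ E := by
    have h1 : (1 : ℝ) ≤ w * Real.exp (2 * σ + 2) := by nlinarith
    have h2 := Real.add_one_le_exp ((w : ℝ) * Real.exp (2 * σ + 2))
    rw [← hE] at h2
    linarith
  have hex : ∃ N, 2 * (σ : ℝ) ≤ ∑ p ∈ PP w N, (1 : ℝ) / p := by
    refine ⟨⌈E⌉₊, ?_⟩
    have h1 : E ≤ (⌈E⌉₊ : ℝ) := Nat.le_ceil E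
    have h2 : 2 ≤ ⌈E⌉₊ := by
      have : (2 : ℝ) ≤ (⌈E⌉₊ : ℝ) := by linarith
      exact_mod_cast this
    have h3 := PP_sum_lower (w := w) h2
    have h4 : (w : ℝ) * Real.exp (2 * σ + 2) ≤ Real.log (⌈E⌉₊ : ℝ) := by
      rw [Real.le_log_iff_exp_le (by linarith), ← hE]
      exact h1
    have h5 : Real.log w + (2 * σ + 2) ≤ Real.log (Real.log (⌈E⌉₊ : ℝ)) := by
      have h6 : Real.log ((w : ℝ) * Real.exp (2 * σ + 2)) = Real.log w + (2 * σ + 2) := by
        rw [Real.log_mul (by positivity) (Real.exp_ne_zero _), Real.log_exp]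
      rw [← h6]
      exact Real.log_le_log (by positivity) h4
    linarith
  classical
  obtain ⟨N, hN⟩ : ∃ N, N = Nat.find hex := ⟨_, rfl⟩
  have hN1 : 2 * (σ : ℝ) ≤ ∑ p ∈ PP w N, (1 : ℝ) / p := by rw [hN]; exact Nat.find_spec hex
  have hN2 : N ≤ ⌈E⌉₊ := by
    rw [hN]
    apply Nat.find_min'
    have h1 : E ≤ (⌈E⌉₊ : ℝ) := Nat.le_ceil E
    have h2 : 2 ≤ ⌈E⌉₊ := by
      have : (2 : ℝ) ≤ (⌈E⌉₊ : ℝ) := by linarith
      exact_mod_cast this
    have h3 := PP_sum_lower (w := w) h2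
    have h4 : (w : ℝ) * Real.exp (2 * σ + 2) ≤ Real.log (⌈E⌉₊ : ℝ) := by
      rw [Real.le_log_iff_exp_le (by linarith), ← hE]
      exact h1
    have h5 : Real.log w + (2 * σ + 2) ≤ Real.log (Real.log (⌈E⌉₊ : ℝ)) := by
      have h6 : Real.log ((w : ℝ) * Real.exp (2 * σ + 2)) = Real.log w + (2 * σ + 2) := by
        rw [Real.log_mul (by positivity) (Real.exp_ne_zero _), Real.log_exp]
      rw [← h6]
      exact Real.log_le_log (by positivity) h4
    linarith
  refine ⟨PP w N, ?_, ?_, hN1, ?_, ?_⟩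
  · intro p hp
    exact Nat.prime_of_mem_primesBelow (Finset.mem_filter.1 hp).1
  · intro p hp
    exact (Finset.mem_filter.1 hp).2
  · rcases Nat.eq_zero_or_pos N with h0 | hpos
    · rw [h0]
      have : PP w 0 = ∅ := by
        rw [PP, Nat.primesBelow]; simp
      rw [this]
      simp
      positivity
    · have h1 : ¬ 2 * (σ : ℝ) ≤ ∑ p ∈ PP w (N - 1), (1 : ℝ) / p := by
        apply Nat.find_min hex
        rw [← hN]; omega
      push Not at h1
      have h2 : ∑ p ∈ PP w N, (1 : ℝ) / p ≤ ∑ p ∈ PP w (N - 1) ∪ {N - 1}, (1 : ℝ) / p := by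
        apply Finset.sum_le_sum_of_subset_of_nonneg
        · intro p hp
          rw [PP, Finset.mem_filter] at hp
          rw [Finset.mem_union, Finset.mem_singleton, PP, Finset.mem_filter]
          have hp1 := Nat.prime_of_mem_primesBelow hp.1
          have hp2 := Nat.lt_of_mem_primesBelow hp.1
          by_cases h3 : p = N - 1
          · right; exact h3
          · left
            exact ⟨Nat.mem_primesBelow.2 ⟨by omega, hp1⟩, hp.2⟩
        · intro p _ _
          positivity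
      have h3 : ∑ p ∈ PP w (N - 1) ∪ {N - 1}, (1 : ℝ) / p ≤
          ∑ p ∈ PP w (N - 1), (1 : ℝ) / p + ∑ p ∈ ({N - 1} : Finset ℕ), (1 : ℝ) / p := by
        rw [← Finset.sum_union_inter]
        have : 0 ≤ ∑ p ∈ PP w (N - 1) ∩ {N - 1}, (1 : ℝ) / p := by
          apply Finset.sum_nonneg
          intro p _
          positivity
        linarith
      have h4 : ∑ p ∈ ({N - 1} : Finset ℕ), (1 : ℝ) / p ≤ 1 := by
        rw [Finset.sum_singleton]
        rcases Nat.eq_zero_or_pos (N - 1) with h5 | h5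
        · rw [h5]; simp
        · rw [div_le_one (by exact_mod_cast h5)]
          exact_mod_cast h5
      linarith
  · have h1 : (PP w N).card ≤ N := by
      calc (PP w N).card ≤ N.primesBelow.card := Finset.card_filter_le _ _
        _ ≤ N := by
          rw [Nat.primesBelow]
          exact (Finset.card_filter_le _ _).trans (by simp)
    have h2 : ((PP w N).card : ℝ) ≤ (⌈E⌉₊ : ℝ) := by exact_mod_cast h1.trans hN2
    have h3 := Nat.ceil_lt_add_one (a := E) (by linarith)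
    rw [← hE]
    linarith

end Pool.Agent.H515R2.Med
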