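import Mathlib
import Pool.Agent.H515R2.MedBrun

set_option autoImplicit false

namespace Pool.Agent.H515R2.Med

open Finset

/-- number of the integers strictly between `x` and `x + y` with a divisor strictly between
`n` and `2n` -/
def cnt (n x y : ℕ) : ℕ :=
  ((Finset.Ioo n (2 * n)).biUnion (fun d => (Finset.Ioo x (x + y)).filter (d ∣ ·))).card

lemma J_one {x y : ℕ} (hy : 0 < y) : J x y 1 = Finset.Ioo x (x + y) := by
  ext m
  rw [mem_J one_pos hy, Finset.mem_Ioo, mul_one]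

lemma J_dvd {x y D : ℕ} (hD : 0 < D) (hy : 0 < y) :
    ((Finset.Ioo x (x + y)).filter (D ∣ ·)).card = (J x y D).card := by
  symm
  apply Finset.card_bij (fun j _ => j * D)
  · intro j hj
    rw [mem_J hD hy] at hj
    rw [Finset.mem_filter, Finset.mem_Ioo]
    exact ⟨hj, Dvd.intro_left _ rfl⟩
  · intro j _ j' _ h
    exact Nat.eq_of_mul_eq_mul_right hD h
  · intro m hm
    rw [Finset.mem_filter, Finset.mem_Ioo] at hm
    obtain ⟨⟨h1, h2⟩, j, rfl⟩ := hm
    refine ⟨j, ?_, by ring⟩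
    rw [mem_J hD hy, mul_comm j D]
    exact ⟨h1, h2⟩

lemma om_add_le {P : Finset ℕ} {d k : ℕ} (h : ∀ p ∈ P, ¬ (p ∣ d ∧ p ∣ k)) :
    om P d + om P k ≤ om P (k * d) := by
  rw [om, om, om, ← Finset.card_union_of_disjoint]
  · apply Finset.card_le_card
    intro p hp
    rw [Finset.mem_union, Finset.mem_filter, Finset.mem_filter] at hp
    rw [Finset.mem_filter]
    rcases hp with ⟨h1, h2⟩ | ⟨h1, h2⟩
    · exact ⟨h1, Dvd.dvd.mul_left h2 k⟩
    · exact ⟨h1, Dvd.dvd.mul_right h2 d⟩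
  · rw [Finset.disjoint_left]
    intro p hp hp'
    rw [Finset.mem_filter] at hp hp'
    exact h p hp.1 ⟨hp.2, hp'.2⟩

/-- The combinatorial bound. -/
theorem window {P : Finset ℕ} (hP : ∀ p ∈ P, p.Prime) (T : ℕ) {r : ℕ} (hr : Even r) {n x y : ℕ}
    (hn : 0 < n) (hy : 0 < y) :
    (cnt n x y : ℝ) ≤ ∑ p ∈ P, ((y : ℝ) / (p : ℝ) ^ 2 + 1) +
      (2 / 3) ^ T * ((y : ℝ) * ∏ p ∈ P, (1 + (1 / 2) / (p : ℝ)) + (1 + 1 / 2) ^ P.card) +
      (4 / 3) ^ T *
        (((n : ℝ) * (∏ p ∈ P, (1 - (1 / 4) / (p : ℝ)) + (1 / 4) ^ r * ∏ p ∈ P, (1 + 4 / (p : ℝ))) +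
          ((P.card : ℝ) + 1) ^ r) *
        (((y : ℝ) / n) * (∏ p ∈ P, (1 - (1 / 4) / (p : ℝ)) +
          (1 / 4) ^ r * ∏ p ∈ P, (1 + 4 / (p : ℝ))) + ((P.card : ℝ) + 1) ^ r)) := by
  classical
  obtain ⟨W, hW⟩ : ∃ W, W = Finset.Ioo x (x + y) := ⟨_, rfl⟩
  obtain ⟨A, hA⟩ : ∃ A : ℝ, A = ∏ p ∈ P, (1 - (1 / 4) / (p : ℝ)) +
      (1 / 4) ^ r * ∏ p ∈ P, (1 + 4 / (p : ℝ)) := ⟨_, rfl⟩
  obtain ⟨R, hR⟩ : ∃ R : ℝ, R = ((P.card : ℝ) + 1) ^ r := ⟨_, rfl⟩
  have hA0 : 0 ≤ A := by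
    rw [hA]
    have : 0 ≤ ∏ p ∈ P, (1 - (1 / 4) / (p : ℝ)) := by
      apply Finset.prod_nonneg
      intro p hp
      have : (2 : ℝ) ≤ p := by exact_mod_cast (hP p hp).two_le
      have : (1 / 4) / (p : ℝ) ≤ 1 := by
        rw [div_le_one (by linarith)]; linarith
      linarith
    positivity
  have hR0 : 0 ≤ R := by rw [hR]; positivity
  have hnR : (0 : ℝ) < n := by exact_mod_cast hn
  -- the three exceptional sets
  obtain ⟨A1, hA1⟩ : ∃ A1, A1 = P.biUnion (fun p => W.filter (p ^ 2 ∣ ·)) := ⟨_, rfl⟩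
  obtain ⟨A2, hA2⟩ : ∃ A2, A2 = W.filter (fun m => T ≤ om P m) := ⟨_, rfl⟩
  obtain ⟨Q, hQ⟩ : ∃ Q, Q = (Finset.Ioo n (2 * n)).sigma (fun d => (J x y d).filter
    (fun k => om P d + om P k < T)) := ⟨_, rfl⟩
  obtain ⟨A3, hA3⟩ : ∃ A3, A3 = Q.image (fun q => q.2 * q.1) := ⟨_, rfl⟩
  have hsub : (Finset.Ioo n (2 * n)).biUnion (fun d => W.filter (d ∣ ·)) ⊆ A1 ∪ (A2 ∪ A3) := by
    intro m hm
    rw [Finset.mem_biUnion] at hm
    obtain ⟨d, hd, hm⟩ := hm
    rw [Finset.mem_filter] at hm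
    obtain ⟨hmW, k, hk⟩ := hm
    obtain ⟨hd1, hd2⟩ := Finset.mem_Ioo.1 hd
    by_cases h1 : m ∈ A1
    · exact Finset.mem_union_left _ h1
    by_cases h2 : m ∈ A2
    · exact Finset.mem_union_right _ (Finset.mem_union_left _ h2)
    apply Finset.mem_union_right _ (Finset.mem_union_right _ _)
    rw [hA1, Finset.mem_biUnion] at h1
    push Not at h1
    rw [hA2, Finset.mem_filter] at h2
    push Not at h2
    have h3 := h2 hmW
    have hm' : m = k * d := by rw [hk]; ring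
    have hkf : k ∈ (J x y d).filter (fun k => om P d + om P k < T) := by
      rw [Finset.mem_filter, mem_J (by omega) hy]
      rw [hW, Finset.mem_Ioo, hm'] at hmW
      refine ⟨hmW, lt_of_le_of_lt (om_add_le ?_) (hm' ▸ h3)⟩
      rintro p hp ⟨⟨a, ha⟩, ⟨b, hb⟩⟩
      apply h1 p hp
      rw [Finset.mem_filter, hW, Finset.mem_Ioo, hm']
      refine ⟨hmW, ⟨a * b, ?_⟩⟩
      rw [ha, hb]; ring
    rw [hA3, Finset.mem_image]
    refine ⟨⟨d, k⟩, ?_, hm'.symm⟩
    rw [hQ, Finset.mem_sigma]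
    exact ⟨hd, hkf⟩
  have hc : (cnt n x y : ℝ) ≤ (A1.card : ℝ) + (A2.card : ℝ) + (A3.card : ℝ) := by
    have h1 : cnt n x y ≤ A1.card + (A2.card + A3.card) := by
      rw [cnt, ← hW]
      exact (Finset.card_le_card hsub).trans ((Finset.card_union_le _ _).trans
        (Nat.add_le_add_left (Finset.card_union_le _ _) _))
    have h2 : (cnt n x y : ℝ) ≤ ((A1.card + (A2.card + A3.card) : ℕ) : ℝ) := by exact_mod_cast h1
    push_cast at h2
    linarith
  -- the set A1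
  have c1 : (A1.card : ℝ) ≤ ∑ p ∈ P, ((y : ℝ) / (p : ℝ) ^ 2 + 1) := by
    have h1 : A1.card ≤ ∑ p ∈ P, (W.filter (p ^ 2 ∣ ·)).card := by
      rw [hA1]; exact Finset.card_biUnion_le
    have h2 : (A1.card : ℝ) ≤ ∑ p ∈ P, ((W.filter (p ^ 2 ∣ ·)).card : ℝ) := by exact_mod_cast h1
    refine h2.trans (Finset.sum_le_sum ?_)
    intro p hp
    have hp0 : 0 < p ^ 2 := pow_pos (hP p hp).pos 2
    rw [hW, J_dvd hp0 hy]
    have := (abs_le.1 (card_J (x := x) hp0 hy)).2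
    push_cast at this
    linarith
  -- the set A2
  have c2 : (A2.card : ℝ) ≤ (2 / 3) ^ T *
      ((y : ℝ) * ∏ p ∈ P, (1 + (1 / 2) / (p : ℝ)) + (1 + 1 / 2) ^ P.card) := by
    have h1 := upper hP (s := 1 / 2) (by norm_num) (x := x) (d := 1) one_pos hy
    rw [Nat.cast_one, div_one, J_one hy, ← hW] at h1
    have h2 : (A2.card : ℝ) * (3 / 2) ^ T ≤ ∑ k ∈ W, (1 + 1 / 2 : ℝ) ^ (om P k) := by
      calc (A2.card : ℝ) * (3 / 2) ^ T = ∑ k ∈ A2, (3 / 2 : ℝ) ^ T := by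
            rw [Finset.sum_const, nsmul_eq_mul]
        _ ≤ ∑ k ∈ A2, (1 + 1 / 2 : ℝ) ^ (om P k) := by
            apply Finset.sum_le_sum
            intro k hk
            rw [hA2, Finset.mem_filter] at hk
            rw [show (1 + 1 / 2 : ℝ) = 3 / 2 by norm_num]
            exact pow_le_pow_right₀ (by norm_num) hk.2
        _ ≤ _ := by
            rw [hA2]
            apply Finset.sum_le_sum_of_subset_of_nonneg (Finset.filter_subset _ _)
            intro k _ _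
            positivity
    have h3 : (A2.card : ℝ) = (2 / 3) ^ T * ((A2.card : ℝ) * (3 / 2) ^ T) := by
      have : (2 / 3 : ℝ) ^ T * (3 / 2) ^ T = 1 := by
        rw [← mul_pow]; norm_num
      calc (A2.card : ℝ) = (A2.card : ℝ) * ((2 / 3 : ℝ) ^ T * (3 / 2) ^ T) := by rw [this, mul_one]
        _ = _ := by ring
    rw [h3]
    apply mul_le_mul_of_nonneg_left (h2.trans h1) (by positivity)
  -- the set A3
  have c3 : (A3.card : ℝ) ≤ (4 / 3) ^ T * (((n : ℝ) * A + R) * (((y : ℝ) / n) * A + R)) := by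
    have h1 : (A3.card : ℝ) ≤ (Q.card : ℝ) := by
      rw [hA3]; exact_mod_cast Finset.card_image_le
    have h2 : (Q.card : ℝ) ≤ ∑ d ∈ Finset.Ioo n (2 * n),
        ∑ k ∈ J x y d, (4 / 3 : ℝ) ^ T * ((3 / 4) ^ (om P d) * (1 - 1 / 4) ^ (om P k)) := by
      rw [hQ, Finset.card_sigma]
      push_cast
      apply Finset.sum_le_sum
      intro d _
      rw [Finset.cast_card]
      rw [Finset.sum_filter]
      apply Finset.sum_le_sum
      intro k _
      split_ifs with h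
      · have h5 : (1 : ℝ) ≤ (4 / 3 : ℝ) ^ T * (3 / 4) ^ (om P d + om P k) := by
          calc (1 : ℝ) = (4 / 3 : ℝ) ^ T * (3 / 4) ^ T := by rw [← mul_pow]; norm_num
            _ ≤ _ := by
              apply mul_le_mul_of_nonneg_left _ (by positivity)
              exact pow_le_pow_of_le_one (by norm_num) (by norm_num) h.le
        rw [pow_add] at h5
        rw [show (1 - 1 / 4 : ℝ) = 3 / 4 by norm_num]
        exact h5
      · rw [show (1 - 1 / 4 : ℝ) = 3 / 4 by norm_num]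
        positivity
    have h3 : ∀ d ∈ Finset.Ioo n (2 * n),
        ∑ k ∈ J x y d, (4 / 3 : ℝ) ^ T * ((3 / 4) ^ (om P d) * (1 - 1 / 4) ^ (om P k)) ≤
        (4 / 3 : ℝ) ^ T * ((3 / 4) ^ (om P d) * (((y : ℝ) / n) * A + R)) := by
      intro d hd
      rw [Finset.mem_Ioo] at hd
      have hd0 : 0 < d := by omega
      rw [← Finset.mul_sum, ← Finset.mul_sum]
      apply mul_le_mul_of_nonneg_left _ (by positivity)
      apply mul_le_mul_of_nonneg_left _ (by positivity)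
      have h4 := brun hP (t := 1 / 4) (by norm_num) (by norm_num) hr (x := x) hd0 hy
      rw [← hA, ← hR] at h4
      refine h4.trans ?_
      have h5 : (y : ℝ) / d ≤ (y : ℝ) / n := by
        apply div_le_div_of_nonneg_left (by positivity) hnR
        exact_mod_cast hd.1.le
      have h6 := mul_le_mul_of_nonneg_right h5 hA0
      linarith
    have h4 := brun hP (t := 1 / 4) (by norm_num) (by norm_num) hr (x := n) (d := 1) one_pos hn
    rw [← hA, ← hR, Nat.cast_one, div_one, J_one hn, ← two_mul] at h4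
    have h5 := h2.trans (Finset.sum_le_sum h3)
    rw [← Finset.mul_sum, ← Finset.sum_mul] at h5
    refine h1.trans (h5.trans ?_)
    apply mul_le_mul_of_nonneg_left _ (by positivity)
    apply mul_le_mul_of_nonneg_right _ (by positivity)
    rw [show (1 - 1 / 4 : ℝ) = 3 / 4 by norm_num] at h4
    exact h4
  rw [← hA, ← hR]
  linarith

end Pool.Agent.H515R2.Med
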