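import Mathlib
import Pool.Agent.H515R2.MedWindow
import Pool.Agent.H515R2.MedPrimes

set_option autoImplicit false

namespace Pool.Agent.H515R2.Med

open Finset

lemma prod_le_exp (P : Finset ℕ) (c : ℝ) (h : ∀ p ∈ P, 0 ≤ 1 + c / (p : ℝ)) :
    ∏ p ∈ P, (1 + c / (p : ℝ)) ≤ Real.exp (c * ∑ p ∈ P, (1 : ℝ) / p) := by
  rw [Finset.mul_sum, Real.exp_sum]
  apply Finset.prod_le_prod h
  intro p _
  have := Real.add_one_le_exp (c * (1 / (p : ℝ)))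
  have h2 : c / (p : ℝ) = c * (1 / (p : ℝ)) := by ring
  rw [h2]; linarith

lemma exp_one_num : Real.exp 1 < 2.7182818286 := Real.exp_one_lt_d9

lemma exp_one_num' : (2.7182818283 : ℝ) < Real.exp 1 := Real.exp_one_gt_d9

/-- `(2/3)^(3σ) e^(σ + 1/2) ≤ 2 (9/10)^σ` -/
lemma numA (σ : ℕ) : (2 / 3 : ℝ) ^ (3 * σ) * Real.exp (σ + 1 / 2) ≤ 2 * (9 / 10) ^ σ := by
  have h1 : Real.exp ((σ : ℝ) + 1 / 2) = Real.exp 1 ^ σ * Real.exp (1 / 2) := by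
    rw [Real.exp_add, ← Real.exp_nat_mul, mul_one]
  have h2 : Real.exp (1 / 2) ≤ 2 := by
    have h3 : Real.exp (1 / 2) ^ 2 = Real.exp 1 := by
      rw [← Real.exp_nat_mul]; norm_num
    have h4 := exp_one_num
    by_contra hcon
    push Not at hcon
    nlinarith
  rw [h1, pow_mul]
  have h5 : (2 / 3 : ℝ) ^ 3 * Real.exp 1 ≤ 9 / 10 := by
    have := exp_one_num
    norm_num
    linarith
  have h6 : ((2 / 3 : ℝ) ^ 3) ^ σ * Real.exp 1 ^ σ ≤ (9 / 10) ^ σ := by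
    rw [← mul_pow]
    exact pow_le_pow_left₀ (by positivity) h5 σ
  calc ((2 / 3 : ℝ) ^ 3) ^ σ * (Real.exp 1 ^ σ * Real.exp (1 / 2)) =
      (((2 / 3 : ℝ) ^ 3) ^ σ * Real.exp 1 ^ σ) * Real.exp (1 / 2) := by ring
    _ ≤ (9 / 10) ^ σ * 2 := mul_le_mul h6 h2 (Real.exp_pos _).le (by positivity)
    _ = _ := by ring

/-- `(4/3)^(3σ) e^(-σ/2)^2 ≤ (9/10)^σ` -/
lemma numB (σ : ℕ) : (4 / 3 : ℝ) ^ (3 * σ) * Real.exp (-(σ : ℝ) / 2) ^ 2 ≤ (9 / 10) ^ σ := by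
  have h1 : Real.exp (-(σ : ℝ) / 2) ^ 2 = (Real.exp 1 ^ σ)⁻¹ := by
    rw [← Real.exp_nat_mul, ← Real.exp_nat_mul, ← Real.exp_neg]
    congr 1
    push_cast
    ring
  rw [h1, pow_mul, ← inv_pow, ← mul_pow]
  apply pow_le_pow_left₀ (by positivity)
  rw [← div_eq_mul_inv, div_le_iff₀ (Real.exp_pos 1)]
  have := exp_one_num'
  norm_num
  linarith

/-- `(1/4)^(8σ+4) e^(4(2σ+1)) ≤ e^(-σ/2)` -/
lemma numC (σ : ℕ) : (1 / 4 : ℝ) ^ (8 * σ + 4) * Real.exp (4 * (2 * σ + 1)) ≤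
    Real.exp (-(σ : ℝ) / 2) := by
  have h1 : Real.exp (4 * (2 * (σ : ℝ) + 1)) = Real.exp 1 ^ (8 * σ + 4) := by
    rw [← Real.exp_nat_mul]
    congr 1
    push_cast
    ring
  rw [h1, ← mul_pow]
  have h2 : (1 / 4 : ℝ) * Real.exp 1 ≤ Real.exp (-(1 / 4)) := by
    have h3 : (3 / 4 : ℝ) ≤ Real.exp (-(1 / 4)) := by
      have := Real.add_one_le_exp (-(1 / 4) : ℝ)
      linarith
    have := exp_one_num
    linarith
  refine (pow_le_pow_left₀ (by positivity) h2 _).trans ?_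
  rw [← Real.exp_nat_mul]
  apply Real.exp_le_exp.2
  push_cast
  have : (0 : ℝ) ≤ σ := Nat.cast_nonneg σ
  linarith

/-- for the exponential size of the sieving range -/
lemma numR (w σ : ℕ) (hw : 1 ≤ w) (c : ℝ) (hc0 : 0 ≤ c)
    (hc : c ≤ Real.exp (w * Real.exp (2 * σ + 2)) + 1) :
    (c + 1) ^ (8 * σ + 4) ≤ Real.exp (w * Real.exp (4 * σ + 5)) * Real.exp (-(σ : ℝ) / 2) := by
  have hwR : (1 : ℝ) ≤ w := by exact_mod_cast hw
  have hσ : (0 : ℝ) ≤ σ := Nat.cast_nonneg σ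
  obtain ⟨u, hu⟩ : ∃ u : ℝ, u = w * Real.exp (2 * σ + 2) := ⟨_, rfl⟩
  rw [← hu] at hc
  have hu1 : 1 ≤ u := by
    have : 1 ≤ Real.exp (2 * (σ : ℝ) + 2) := Real.one_le_exp (by positivity)
    rw [hu]; nlinarith
  have h1 : c + 1 ≤ Real.exp (2 * u) := by
    have h2 : Real.exp (2 * u) = Real.exp u * Real.exp u := by
      rw [← Real.exp_add]; congr 1; ring
    have h3 : 2 ≤ Real.exp u := by
      have := Real.add_one_le_exp u
      linarith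
    rw [h2]
    nlinarith
  have h2 : (c + 1) ^ (8 * σ + 4) ≤ Real.exp ((16 * σ + 8) * u) := by
    refine (pow_le_pow_left₀ (by linarith) h1 _).trans (le_of_eq ?_)
    rw [← Real.exp_nat_mul]
    congr 1
    push_cast
    ring
  refine h2.trans ?_
  rw [← Real.exp_add]
  apply Real.exp_le_exp.2
  have h3 : Real.exp (4 * (σ : ℝ) + 5) = Real.exp (2 * σ + 2) * (Real.exp (2 * σ) * Real.exp 3) := by
    rw [← Real.exp_add, ← Real.exp_add]; congr 1; ring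
  have h4 : 2 * (σ : ℝ) + 1 ≤ Real.exp (2 * σ) := Real.add_one_le_exp _
  have h5 : 9 ≤ Real.exp 3 := by
    have : Real.exp 3 = Real.exp 1 ^ 3 := by rw [← Real.exp_nat_mul]; norm_num
    rw [this]
    have h6 := exp_one_num'
    have h7 : (2.7 : ℝ) ^ 3 ≤ Real.exp 1 ^ 3 := pow_le_pow_left₀ (by norm_num) (by linarith) 3
    norm_num at h7 ⊢
    linarith
  have h6 : (w : ℝ) * Real.exp (4 * σ + 5) = u * (Real.exp (2 * σ) * Real.exp 3) := by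
    rw [h3, hu]; ring
  rw [h6]
  have h7 : (2 * (σ : ℝ) + 1) * 9 ≤ Real.exp (2 * σ) * Real.exp 3 :=
    mul_le_mul h4 h5 (by norm_num) (Real.exp_pos _).le
  have h8 : u * ((2 * (σ : ℝ) + 1) * 9) ≤ u * (Real.exp (2 * σ) * Real.exp 3) :=
    mul_le_mul_of_nonneg_left h7 (by linarith)
  nlinarith

lemma sum_inv_sq (P : Finset ℕ) (w : ℕ) (hw : 1 ≤ w) (h : ∀ p ∈ P, w < p) :
    ∑ p ∈ P, (1 : ℝ) / (p : ℝ) ^ 2 ≤ 1 / w := by
  have hwR : (1 : ℝ) ≤ w := by exact_mod_cast hw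
  have h1 : P ⊆ Finset.Ioc w (w + P.sup id) := by
    intro p hp
    rw [Finset.mem_Ioc]
    refine ⟨h p hp, ?_⟩
    have : p ≤ P.sup id := Finset.le_sup (f := id) hp
    omega
  have h2 := sum_Ioc_inv_sq_le_sub (α := ℝ) (k := w) (n := w + P.sup id) (by omega) (by omega)
  have h3 : ∑ p ∈ P, (1 : ℝ) / (p : ℝ) ^ 2 ≤
      ∑ i ∈ Finset.Ioc w (w + P.sup id), ((i : ℝ) ^ 2)⁻¹ := by
    simp only [one_div]
    apply Finset.sum_le_sum_of_subset_of_nonneg h1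
    intro i _ _
    positivity
  have h4 : (0 : ℝ) ≤ ((w + P.sup id : ℕ) : ℝ)⁻¹ := by positivity
  rw [one_div]
  linarith

/-- Upper bound, with parameters. -/
theorem upper_param (w σ : ℕ) (hw : 1 ≤ w) : ∃ M : ℝ, ∀ n x y : ℕ, 0 < n → 0 < y →
    Real.exp (w * Real.exp (4 * σ + 5)) ≤ n →
    Real.exp (w * Real.exp (4 * σ + 5)) * n ≤ y →
    (cnt n x y : ℝ) ≤ (y : ℝ) * (1 / (w : ℝ) + 11 * (9 / 10) ^ σ) + M := by
  obtain ⟨P, hP, hPw, hS1, hS2, hPc⟩ := exists_P w σ hw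
  refine ⟨P.card + (3 / 2) ^ P.card, ?_⟩
  intro n x y hn hy hnC hyC
  obtain ⟨S, hS⟩ : ∃ S : ℝ, S = ∑ p ∈ P, (1 : ℝ) / p := ⟨_, rfl⟩
  obtain ⟨B, hB⟩ : ∃ B : ℝ, B = Real.exp (-(σ : ℝ) / 2) := ⟨_, rfl⟩
  obtain ⟨R, hR⟩ : ∃ R : ℝ, R = ((P.card : ℝ) + 1) ^ (8 * σ + 4) := ⟨_, rfl⟩
  obtain ⟨C, hC⟩ : ∃ C : ℝ, C = Real.exp (w * Real.exp (4 * σ + 5)) := ⟨_, rfl⟩
  have hB0 : 0 < B := by rw [hB]; exact Real.exp_pos _
  have hnR : (0 : ℝ) < n := by exact_mod_cast hn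
  have hyR : (0 : ℝ) < y := by exact_mod_cast hy
  have hp2 : ∀ p ∈ P, (2 : ℝ) ≤ p := fun p hp => by exact_mod_cast (hP p hp).two_le
  have hwin := window hP (3 * σ) (r := 8 * σ + 4) (by exact ⟨4 * σ + 2, by ring⟩) hn hy (x := x)
  -- the products
  have e1 : ∏ p ∈ P, (1 + (1 / 2) / (p : ℝ)) ≤ Real.exp (σ + 1 / 2) := by
    refine (prod_le_exp P (1 / 2) (fun p hp => by positivity)).trans ?_
    apply Real.exp_le_exp.2
    rw [← hS]; linarith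
  have e2 : ∏ p ∈ P, (1 - (1 / 4) / (p : ℝ)) ≤ B := by
    have h1 : ∏ p ∈ P, (1 - (1 / 4) / (p : ℝ)) = ∏ p ∈ P, (1 + (-(1 / 4)) / (p : ℝ)) := by
      apply Finset.prod_congr rfl
      intro p _
      ring
    rw [h1]
    refine (prod_le_exp P (-(1 / 4)) (fun p hp => ?_)).trans ?_
    · have h2 := hp2 p hp
      have h3 : (-(1 / 4)) / (p : ℝ) = -((1 / 4) / (p : ℝ)) := by ring
      have h4 : (1 / 4) / (p : ℝ) ≤ 1 := by
        rw [div_le_one (by linarith)]; linarith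
      rw [h3]; linarith
    · rw [hB]
      apply Real.exp_le_exp.2
      rw [← hS]; linarith
  have e3 : (1 / 4 : ℝ) ^ (8 * σ + 4) * ∏ p ∈ P, (1 + 4 / (p : ℝ)) ≤ B := by
    have h1 : ∏ p ∈ P, (1 + 4 / (p : ℝ)) ≤ Real.exp (4 * (2 * σ + 1)) := by
      refine (prod_le_exp P 4 (fun p hp => by positivity)).trans ?_
      apply Real.exp_le_exp.2
      rw [← hS]; linarith
    calc (1 / 4 : ℝ) ^ (8 * σ + 4) * ∏ p ∈ P, (1 + 4 / (p : ℝ)) ≤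
        (1 / 4 : ℝ) ^ (8 * σ + 4) * Real.exp (4 * (2 * σ + 1)) :=
          mul_le_mul_of_nonneg_left h1 (by positivity)
      _ ≤ B := by rw [hB]; exact numC σ
  have e4 : R ≤ C * B := by
    rw [hR, hC, hB]
    exact numR w σ hw _ (Nat.cast_nonneg _) hPc
  have e5 : R ≤ n * B := e4.trans (mul_le_mul_of_nonneg_right (hC ▸ hnC) hB0.le)
  have e6 : R ≤ (y : ℝ) / n * B := by
    refine e4.trans (mul_le_mul_of_nonneg_right ?_ hB0.le)
    rw [le_div_iff₀ hnR, hC]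
    exact hyC
  have e7 : ∑ p ∈ P, ((y : ℝ) / (p : ℝ) ^ 2 + 1) ≤ (y : ℝ) * (1 / (w : ℝ)) + (P.card : ℝ) := by
    rw [Finset.sum_add_distrib]
    simp only [Finset.sum_const, nsmul_eq_mul, mul_one]
    have h1 : ∑ p ∈ P, (y : ℝ) / (p : ℝ) ^ 2 = y * ∑ p ∈ P, (1 : ℝ) / (p : ℝ) ^ 2 := by
      rw [Finset.mul_sum]
      apply Finset.sum_congr rfl
      intro p _
      ring
    rw [h1]
    have h2 := mul_le_mul_of_nonneg_left (sum_inv_sq P w hw hPw) hyR.le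
    linarith
  -- second term
  have e8 : (2 / 3 : ℝ) ^ (3 * σ) * ((y : ℝ) * ∏ p ∈ P, (1 + (1 / 2) / (p : ℝ)) +
      (1 + 1 / 2) ^ P.card) ≤ y * (2 * (9 / 10) ^ σ) + (3 / 2) ^ P.card := by
    have h1 : (2 / 3 : ℝ) ^ (3 * σ) * ((y : ℝ) * ∏ p ∈ P, (1 + (1 / 2) / (p : ℝ))) ≤
        y * (2 * (9 / 10) ^ σ) := by
      calc (2 / 3 : ℝ) ^ (3 * σ) * ((y : ℝ) * ∏ p ∈ P, (1 + (1 / 2) / (p : ℝ))) =
          (y : ℝ) * ((2 / 3 : ℝ) ^ (3 * σ) * ∏ p ∈ P, (1 + (1 / 2) / (p : ℝ))) := by ring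
        _ ≤ (y : ℝ) * ((2 / 3 : ℝ) ^ (3 * σ) * Real.exp (σ + 1 / 2)) := by
            apply mul_le_mul_of_nonneg_left _ hyR.le
            exact mul_le_mul_of_nonneg_left e1 (by positivity)
        _ ≤ _ := mul_le_mul_of_nonneg_left (numA σ) hyR.le
    have h2 : (2 / 3 : ℝ) ^ (3 * σ) * (1 + 1 / 2) ^ P.card ≤ (3 / 2) ^ P.card := by
      rw [show (1 + 1 / 2 : ℝ) = 3 / 2 by norm_num]
      have : (2 / 3 : ℝ) ^ (3 * σ) ≤ 1 := pow_le_one₀ (by norm_num) (by norm_num)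
      calc (2 / 3 : ℝ) ^ (3 * σ) * (3 / 2) ^ P.card ≤ 1 * (3 / 2) ^ P.card :=
            mul_le_mul_of_nonneg_right this (by positivity)
        _ = _ := one_mul _
    rw [mul_add]; linarith
  -- third term
  obtain ⟨A, hA⟩ : ∃ A : ℝ, A = ∏ p ∈ P, (1 - (1 / 4) / (p : ℝ)) +
      (1 / 4) ^ (8 * σ + 4) * ∏ p ∈ P, (1 + 4 / (p : ℝ)) := ⟨_, rfl⟩
  have hA0 : 0 ≤ A := by
    rw [hA]
    have : 0 ≤ ∏ p ∈ P, (1 - (1 / 4) / (p : ℝ)) := by
      apply Finset.prod_nonneg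
      intro p hp
      have h2 := hp2 p hp
      have h4 : (1 / 4) / (p : ℝ) ≤ 1 := by
        rw [div_le_one (by linarith)]; linarith
      linarith
    positivity
  have hA2 : A ≤ 2 * B := by rw [hA]; linarith
  rw [← hA, ← hR] at hwin
  have e9 : (n : ℝ) * A + R ≤ 3 * (n * B) := by nlinarith
  have e10 : (y : ℝ) / n * A + R ≤ 3 * ((y : ℝ) / n * B) := by
    have : (0 : ℝ) ≤ (y : ℝ) / n := by positivity
    nlinarith
  have hR0 : 0 ≤ R := by rw [hR]; positivity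
  have e11 : (4 / 3 : ℝ) ^ (3 * σ) * (((n : ℝ) * A + R) * ((y : ℝ) / n * A + R)) ≤
      y * (9 * (9 / 10) ^ σ) := by
    have h1 : ((n : ℝ) * A + R) * ((y : ℝ) / n * A + R) ≤ 9 * y * B ^ 2 := by
      calc ((n : ℝ) * A + R) * ((y : ℝ) / n * A + R) ≤
          (3 * (n * B)) * (3 * ((y : ℝ) / n * B)) :=
            mul_le_mul e9 e10 (by positivity) (by positivity)
        _ = _ := by field_simp; ring
    calc (4 / 3 : ℝ) ^ (3 * σ) * (((n : ℝ) * A + R) * ((y : ℝ) / n * A + R)) ≤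
        (4 / 3 : ℝ) ^ (3 * σ) * (9 * y * B ^ 2) := mul_le_mul_of_nonneg_left h1 (by positivity)
      _ = 9 * y * ((4 / 3 : ℝ) ^ (3 * σ) * B ^ 2) := by ring
      _ ≤ 9 * y * (9 / 10) ^ σ := by
          apply mul_le_mul_of_nonneg_left _ (by positivity)
          rw [hB]; exact numB σ
      _ = _ := by ring
  linarith

end Pool.Agent.H515R2.Med
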