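import Mathlib
import Pool.Agent.H515R2.MedUpper

set_option autoImplicit false

namespace Pool.Agent.H515R2.Med

open Finset Pointwise

lemma gcd_sum (K : ℕ) (hK : 1 ≤ K) :
    ∑ q ∈ Finset.Ioc K (2 * K) ×ˢ Finset.Ioc K (2 * K), (Nat.gcd q.1 q.2 : ℝ) ≤
      4 * (K : ℝ) ^ 2 * (1 + Real.log (2 * K)) := by
  obtain ⟨t, ht⟩ : ∃ t, t = Finset.Ioc K (2 * K) := ⟨_, rfl⟩
  rw [← ht]
  have h1 : ∀ q ∈ t ×ˢ t, (Nat.gcd q.1 q.2 : ℝ) ≤
      ∑ g ∈ Finset.Icc 1 (2 * K), (g : ℝ) * ((if g ∣ q.1 then (1 : ℝ) else 0) *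
        (if g ∣ q.2 then (1 : ℝ) else 0)) := by
    intro q hq
    rw [Finset.mem_product, ht, Finset.mem_Ioc, Finset.mem_Ioc] at hq
    have hg1 : 1 ≤ Nat.gcd q.1 q.2 := Nat.gcd_pos_of_pos_left _ (by omega)
    have hg2 : Nat.gcd q.1 q.2 ≤ 2 * K :=
      (Nat.le_of_dvd (by omega) (Nat.gcd_dvd_left q.1 q.2)).trans hq.1.2
    have h2 := Finset.single_le_sum (f := fun g : ℕ => (g : ℝ) * ((if g ∣ q.1 then (1 : ℝ) else 0) *
        (if g ∣ q.2 then (1 : ℝ) else 0))) (s := Finset.Icc 1 (2 * K))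
        (fun g _ => by positivity) (Finset.mem_Icc.2 ⟨hg1, hg2⟩)
    simp only [Nat.gcd_dvd_left, Nat.gcd_dvd_right, if_true, mul_one] at h2
    exact h2
  refine (Finset.sum_le_sum h1).trans ?_
  rw [Finset.sum_comm]
  have h2 : ∀ g ∈ Finset.Icc 1 (2 * K), ∑ q ∈ t ×ˢ t, (g : ℝ) * ((if g ∣ q.1 then (1 : ℝ) else 0) *
        (if g ∣ q.2 then (1 : ℝ) else 0)) ≤ 4 * (K : ℝ) ^ 2 * ((g : ℝ))⁻¹ := by
    intro g hg
    rw [Finset.mem_Icc] at hg
    have hgR : (1 : ℝ) ≤ g := by exact_mod_cast hg.1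
    have hsm := Finset.sum_mul_sum t t (fun k => if g ∣ k then (1 : ℝ) else 0)
      (fun k => if g ∣ k then (1 : ℝ) else 0)
    rw [← Finset.mul_sum, Finset.sum_product, ← hsm]
    have h3 : ∑ k ∈ t, (if g ∣ k then (1 : ℝ) else 0) ≤ 2 * K / g := by
      rw [Finset.sum_ite, Finset.sum_const_zero, add_zero, Finset.sum_const, nsmul_eq_mul, mul_one]
      have h4 : (t.filter (g ∣ ·)).card ≤ 2 * K / g := by
        rw [← Nat.Ioc_filter_dvd_card_eq_div (2 * K) g]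
        apply Finset.card_le_card
        apply Finset.filter_subset_filter
        rw [ht]
        apply Finset.Ioc_subset_Ioc_left (by omega)
      calc ((t.filter (g ∣ ·)).card : ℝ) ≤ ((2 * K / g : ℕ) : ℝ) := by exact_mod_cast h4
        _ ≤ ((2 * K : ℕ) : ℝ) / g := Nat.cast_div_le
        _ = _ := by push_cast; ring
    have h0 : 0 ≤ ∑ k ∈ t, (if g ∣ k then (1 : ℝ) else 0) := by
      apply Finset.sum_nonneg; intro k _; positivity
    calc (g : ℝ) * ((∑ k ∈ t, (if g ∣ k then (1 : ℝ) else 0)) *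
          ∑ k ∈ t, (if g ∣ k then (1 : ℝ) else 0)) ≤ (g : ℝ) * ((2 * K / g) * (2 * K / g)) := by
          apply mul_le_mul_of_nonneg_left _ (by linarith)
          exact mul_le_mul h3 h3 h0 (by positivity)
      _ = _ := by field_simp; ring
  refine (Finset.sum_le_sum h2).trans ?_
  rw [← Finset.mul_sum]
  apply mul_le_mul_of_nonneg_left _ (by positivity)
  have h3 := harmonic_le_one_add_log (2 * K)
  rw [harmonic_eq_sum_Icc] at h3
  push_cast at h3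
  exact h3

lemma energy_le (n K : ℕ) (hn : 1 ≤ n) (hK : 1 ≤ K) :
    (Finset.mulEnergy (Finset.Ioo n (2 * n)) (Finset.Ioc K (2 * K)) : ℝ) ≤
      n * (4 * K * (1 + Real.log (2 * K))) + (K : ℝ) ^ 2 := by
  obtain ⟨s, hs⟩ : ∃ s, s = Finset.Ioo n (2 * n) := ⟨_, rfl⟩
  obtain ⟨t, ht⟩ : ∃ t, t = Finset.Ioc K (2 * K) := ⟨_, rfl⟩
  rw [← hs, ← ht]
  have hKR : (1 : ℝ) ≤ K := by exact_mod_cast hK
  have h1 : Finset.mulEnergy s t ≤ ∑ q ∈ t ×ˢ t, (s.filter ((q.2 / Nat.gcd q.1 q.2) ∣ ·)).card := by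
    rw [Finset.mulEnergy]
    rw [Finset.card_eq_sum_card_fiberwise (f := fun x : (ℕ × ℕ) × (ℕ × ℕ) => x.2) (t := t ×ˢ t)]
    · apply Finset.sum_le_sum
      intro q hq
      rw [Finset.mem_product, ht, Finset.mem_Ioc, Finset.mem_Ioc] at hq
      apply Finset.card_le_card_of_injOn (fun x : (ℕ × ℕ) × (ℕ × ℕ) => x.1.1)
      · intro x hx
        simp only [Finset.coe_filter, Finset.mem_filter, Finset.mem_product, Set.mem_ofPred_eq] at hx ⊢
        obtain ⟨⟨⟨⟨h1, _⟩, _⟩, h3⟩, h4⟩ := hx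
        refine ⟨h1, ?_⟩
        rw [h4] at h3
        have hg : 0 < Nat.gcd q.1 q.2 := Nat.gcd_pos_of_pos_left _ (by omega)
        have h5 : q.2 ∣ x.1.1 * q.1 := ⟨x.1.2, by rw [h3]; ring⟩
        have h6 : q.2 / Nat.gcd q.1 q.2 ∣ x.1.1 * (q.1 / Nat.gcd q.1 q.2) := by
          have h7 : q.2 / Nat.gcd q.1 q.2 ∣ (x.1.1 * q.1) / Nat.gcd q.1 q.2 :=
            Nat.div_dvd_div (Nat.gcd_dvd_right _ _) h5
          rw [Nat.mul_div_assoc _ (Nat.gcd_dvd_left _ _)] at h7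
          exact h7
        have h8 : Nat.Coprime (q.2 / Nat.gcd q.1 q.2) (q.1 / Nat.gcd q.1 q.2) :=
          (Nat.coprime_div_gcd_div_gcd hg).symm
        exact h8.dvd_of_dvd_mul_right h6
      · intro x hx x' hx' hxx
        simp only [Finset.coe_filter, Finset.mem_filter, Finset.mem_product, Set.mem_ofPred_eq] at hx hx'
        obtain ⟨⟨_, h3⟩, h4⟩ := hx
        obtain ⟨⟨_, h3'⟩, h4'⟩ := hx'
        simp only at hxx
        rw [h4] at h3
        rw [h4', ← hxx, h3] at h3'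
        have h5 : x.1.2 = x'.1.2 := Nat.eq_of_mul_eq_mul_right (by omega) h3'
        apply Prod.ext
        · exact Prod.ext hxx h5
        · rw [h4, h4']
    · intro x hx
      simp only [Finset.coe_filter, Finset.mem_product, Set.mem_ofPred_eq] at hx
      simp only [Finset.coe_product, Set.mem_prod, Finset.mem_coe]
      exact hx.1.2
  have h2 : (Finset.mulEnergy s t : ℝ) ≤
      ∑ q ∈ t ×ˢ t, ((s.filter ((q.2 / Nat.gcd q.1 q.2) ∣ ·)).card : ℝ) := by exact_mod_cast h1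
  refine h2.trans ?_
  have h3 : ∀ q ∈ t ×ˢ t, ((s.filter ((q.2 / Nat.gcd q.1 q.2) ∣ ·)).card : ℝ) ≤
      (n : ℝ) / K * (Nat.gcd q.1 q.2 : ℝ) + 1 := by
    intro q hq
    rw [Finset.mem_product, ht, Finset.mem_Ioc, Finset.mem_Ioc] at hq
    have hg : 0 < Nat.gcd q.1 q.2 := Nat.gcd_pos_of_pos_left _ (by omega)
    have hD : 0 < q.2 / Nat.gcd q.1 q.2 :=
      Nat.div_pos (Nat.le_of_dvd (by omega) (Nat.gcd_dvd_right _ _)) hg
    have h4 := J_dvd (x := n) hD (y := n) (by omega)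
    rw [← two_mul, ← hs] at h4
    rw [h4]
    have h5 := (abs_le.1 (card_J (x := n) hD (y := n) (by omega))).2
    have h6 : (n : ℝ) / ((q.2 / Nat.gcd q.1 q.2 : ℕ) : ℝ) ≤ (n : ℝ) / K * (Nat.gcd q.1 q.2 : ℝ) := by
      rw [Nat.cast_div (Nat.gcd_dvd_right _ _) (by exact_mod_cast hg.ne')]
      rw [div_div_eq_mul_div, div_mul_eq_mul_div]
      apply div_le_div_of_nonneg_left (by positivity) (by linarith)
      exact_mod_cast hq.2.1.le
    linarith
  refine (Finset.sum_le_sum h3).trans ?_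
  rw [Finset.sum_add_distrib, ← Finset.mul_sum]
  have h4 := gcd_sum K hK
  rw [← ht] at h4
  have h5 : ∑ q ∈ t ×ˢ t, (1 : ℝ) = (K : ℝ) ^ 2 := by
    rw [Finset.sum_const, Finset.card_product, ht, Nat.card_Ioc, nsmul_eq_mul, mul_one]
    have : 2 * K - K = K := by omega
    rw [this]; push_cast; ring
  rw [h5]
  have h6 : (n : ℝ) / K * ∑ q ∈ t ×ˢ t, (Nat.gcd q.1 q.2 : ℝ) ≤
      (n : ℝ) / K * (4 * (K : ℝ) ^ 2 * (1 + Real.log (2 * K))) :=
    mul_le_mul_of_nonneg_left h4 (by positivity)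
  have h7 : (n : ℝ) / K * (4 * (K : ℝ) ^ 2 * (1 + Real.log (2 * K))) =
      n * (4 * K * (1 + Real.log (2 * K))) := by
    field_simp
  linarith

/-- many integers below `4nK` have a divisor between `n` and `2n` -/
lemma lower_count (n K : ℕ) (hn : 1 ≤ n) (hK : 1 ≤ K) :
    ((n : ℝ) - 1) ^ 2 * (K : ℝ) ^ 2 ≤
      (cnt n 0 (4 * n * K) : ℝ) * (n * (4 * K * (1 + Real.log (2 * K))) + (K : ℝ) ^ 2) := by
  have h1 := Finset.le_card_mul_mul_mulEnergy (Finset.Ioo n (2 * n)) (Finset.Ioc K (2 * K))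
  have h2 : (Finset.Ioo n (2 * n) * Finset.Ioc K (2 * K)).card ≤ cnt n 0 (4 * n * K) := by
    rw [cnt]
    apply Finset.card_le_card
    intro m hm
    rw [Finset.mem_mul] at hm
    obtain ⟨d, hd, k, hk, rfl⟩ := hm
    rw [Finset.mem_biUnion]
    refine ⟨d, hd, ?_⟩
    rw [Finset.mem_Ioo] at hd
    rw [Finset.mem_Ioc] at hk
    rw [Finset.mem_filter, Finset.mem_Ioo]
    refine ⟨⟨Nat.mul_pos (by omega) (by omega), ?_⟩, Dvd.intro _ rfl⟩
    calc d * k < (2 * n) * k := Nat.mul_lt_mul_of_pos_right hd.2 (by omega)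
      _ ≤ (2 * n) * (2 * K) := Nat.mul_le_mul_left _ hk.2
      _ = 0 + 4 * n * K := by ring
  have h3 : (Finset.Ioo n (2 * n)).card = n - 1 := by
    rw [Nat.card_Ioo]; omega
  have h4 : (Finset.Ioc K (2 * K)).card = K := by
    rw [Nat.card_Ioc]; omega
  rw [h3, h4] at h1
  have h5 : (((n - 1) ^ 2 * K ^ 2 : ℕ) : ℝ) ≤
      ((cnt n 0 (4 * n * K) * Finset.mulEnergy (Finset.Ioo n (2 * n)) (Finset.Ioc K (2 * K)) : ℕ) : ℝ) := by
    exact_mod_cast h1.trans (Nat.mul_le_mul_right _ h2)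
  push_cast at h5
  rw [Nat.cast_sub hn] at h5
  push_cast at h5
  refine h5.trans ?_
  apply mul_le_mul_of_nonneg_left (energy_le n K hn hK) (Nat.cast_nonneg _)

end Pool.Agent.H515R2.Med
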